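import Pool.Agent.K3h45.LM.M3

/-!
# The checks on the tables
-/

set_option autoImplicit false
set_option linter.unusedSectionVars false

namespace Pool.Agent.K3h45.LM

theorem c1_0 : chunk k1 0 720 = true := by decide +kernel
theorem c1_1 : chunk k1 720 720 = true := by decide +kernel
theorem c1_2 : chunk k1 1440 720 = true := by decide +kernel
theorem c1_3 : chunk k1 2160 720 = true := by decide +kernel
theorem c1_4 : chunk k1 2880 720 = true := by decide +kernel
theorem c1_5 : chunk k1 3600 720 = true := by decide +kernel
theorem c1_6 : chunk k1 4320 720 = true := by decide +kernel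
theorem c1_7 : chunk k1 5040 720 = true := by decide +kernel
theorem c1_8 : chunk k1 5760 720 = true := by decide +kernel
theorem c1_9 : chunk k1 6480 720 = true := by decide +kernel
theorem c1_10 : chunk k1 7200 720 = true := by decide +kernel
theorem c2_0 : chunk k2 0 720 = true := by decide +kernel
theorem c2_1 : chunk k2 720 720 = true := by decide +kernel
theorem c2_2 : chunk k2 1440 720 = true := by decide +kernel
theorem c2_3 : chunk k2 2160 720 = true := by decide +kernel
theorem c2_4 : chunk k2 2880 720 = true := by decide +kernel
theorem c2_5 : chunk k2 3600 720 = true := by decide +kernel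
theorem c2_6 : chunk k2 4320 720 = true := by decide +kernel
theorem c2_7 : chunk k2 5040 720 = true := by decide +kernel
theorem c2_8 : chunk k2 5760 720 = true := by decide +kernel
theorem c2_9 : chunk k2 6480 720 = true := by decide +kernel
theorem c2_10 : chunk k2 7200 720 = true := by decide +kernel

end Pool.Agent.K3h45.LM
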