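import Pool.Agent.K3h45.LM.M3

/-!
# The checks on the tables
-/

set_option autoImplicit false
set_option linter.unusedSectionVars false

namespace Pool.Agent.K3h45.LM

theorem c3_0 : chunk k3 0 720 = true := by decide +kernel
theorem c3_1 : chunk k3 720 720 = true := by decide +kernel
theorem c3_2 : chunk k3 1440 720 = true := by decide +kernel
theorem c3_3 : chunk k3 2160 720 = true := by decide +kernel
theorem c3_4 : chunk k3 2880 720 = true := by decide +kernel
theorem c3_5 : chunk k3 3600 720 = true := by decide +kernel
theorem c3_6 : chunk k3 4320 720 = true := by decide +kernel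
theorem c3_7 : chunk k3 5040 720 = true := by decide +kernel
theorem c3_8 : chunk k3 5760 720 = true := by decide +kernel
theorem c3_9 : chunk k3 6480 720 = true := by decide +kernel
theorem c3_10 : chunk k3 7200 720 = true := by decide +kernel
theorem c4_0 : chunk k4 0 720 = true := by decide +kernel
theorem c4_1 : chunk k4 720 720 = true := by decide +kernel
theorem c4_2 : chunk k4 1440 720 = true := by decide +kernel
theorem c4_3 : chunk k4 2160 720 = true := by decide +kernel
theorem c4_4 : chunk k4 2880 720 = true := by decide +kernel
theorem c4_5 : chunk k4 3600 720 = true := by decide +kernel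
theorem c4_6 : chunk k4 4320 720 = true := by decide +kernel
theorem c4_7 : chunk k4 5040 720 = true := by decide +kernel
theorem c4_8 : chunk k4 5760 720 = true := by decide +kernel
theorem c4_9 : chunk k4 6480 720 = true := by decide +kernel
theorem c4_10 : chunk k4 7200 720 = true := by decide +kernel

end Pool.Agent.K3h45.LM
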