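import Pool.Agent.K3h45.LM.M3

/-!
# The checks on the tables
-/

set_option autoImplicit false
set_option linter.unusedSectionVars false

namespace Pool.Agent.K3h45.LM

theorem c5_0 : chunk k5 0 720 = true := by decide +kernel
theorem c5_1 : chunk k5 720 720 = true := by decide +kernel
theorem c5_2 : chunk k5 1440 720 = true := by decide +kernel
theorem c5_3 : chunk k5 2160 720 = true := by decide +kernel
theorem c5_4 : chunk k5 2880 720 = true := by decide +kernel
theorem c5_5 : chunk k5 3600 720 = true := by decide +kernel
theorem c5_6 : chunk k5 4320 720 = true := by decide +kernel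
theorem c5_7 : chunk k5 5040 720 = true := by decide +kernel
theorem c5_8 : chunk k5 5760 720 = true := by decide +kernel
theorem c5_9 : chunk k5 6480 720 = true := by decide +kernel
theorem c5_10 : chunk k5 7200 720 = true := by decide +kernel
theorem c6_0 : chunk k6 0 720 = true := by decide +kernel

end Pool.Agent.K3h45.LM
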