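import Pool.Agent.K3h45.LM.M3

/-!
# The checks on the tables
-/

set_option autoImplicit false
set_option linter.unusedSectionVars false

namespace Pool.Agent.K3h45.LM

theorem c6_1 : chunk k6 720 720 = true := by decide +kernel
theorem c6_2 : chunk k6 1440 720 = true := by decide +kernel
theorem c6_3 : chunk k6 2160 720 = true := by decide +kernel

end Pool.Agent.K3h45.LM
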