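import Pool.Agent.K3h45.LM.M3

/-!
# The checks on the tables
-/

set_option autoImplicit false
set_option linter.unusedSectionVars false

namespace Pool.Agent.K3h45.LM

theorem c6_7 : chunk k6 5040 720 = true := by decide +kernel
theorem c6_8 : chunk k6 5760 720 = true := by decide +kernel
theorem c6_9 : chunk k6 6480 720 = true := by decide +kernel
theorem c6_10 : chunk k6 7200 720 = true := by decide +kernel

end Pool.Agent.K3h45.LM
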