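import Pool.Agent.K3h45.LM.C1
import Pool.Agent.K3h45.LM.C2
import Pool.Agent.K3h45.LM.C3
import Pool.Agent.K3h45.LM.C4
import Pool.Agent.K3h45.LM.C5
import Pool.Agent.K3h45.LM.C6

/-!
# The checks on the tables, for all elements
-/

set_option autoImplicit false
set_option linter.unusedSectionVars false

namespace Pool.Agent.K3h45.LM

theorem chunk_spec (f : ℕ → Bool) (a n : ℕ) (h : chunk f a n = true) :
    ∀ i, a ≤ i → i < a + n → f i = true := by
  intro i h1 h2
  have h3 := (allT_iff n _).1 h (i - a) (by omega)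
  rwa [Nat.add_sub_cancel' h1] at h3

theorem all1 : ∀ i < 7920, k1 i = true := by
  intro i hi
  by_cases h0 : i < 720
  · exact chunk_spec _ _ _ c1_0 i (by omega) (by omega)
  by_cases h1 : i < 1440
  · exact chunk_spec _ _ _ c1_1 i (by omega) (by omega)
  by_cases h2 : i < 2160
  · exact chunk_spec _ _ _ c1_2 i (by omega) (by omega)
  by_cases h3 : i < 2880
  · exact chunk_spec _ _ _ c1_3 i (by omega) (by omega)
  by_cases h4 : i < 3600
  · exact chunk_spec _ _ _ c1_4 i (by omega) (by omega)
  by_cases h5 : i < 4320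
  · exact chunk_spec _ _ _ c1_5 i (by omega) (by omega)
  by_cases h6 : i < 5040
  · exact chunk_spec _ _ _ c1_6 i (by omega) (by omega)
  by_cases h7 : i < 5760
  · exact chunk_spec _ _ _ c1_7 i (by omega) (by omega)
  by_cases h8 : i < 6480
  · exact chunk_spec _ _ _ c1_8 i (by omega) (by omega)
  by_cases h9 : i < 7200
  · exact chunk_spec _ _ _ c1_9 i (by omega) (by omega)
  exact chunk_spec _ _ _ c1_10 i (by omega) (by omega)

theorem all2 : ∀ i < 7920, k2 i = true := by
  intro i hi
  by_cases h0 : i < 720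
  · exact chunk_spec _ _ _ c2_0 i (by omega) (by omega)
  by_cases h1 : i < 1440
  · exact chunk_spec _ _ _ c2_1 i (by omega) (by omega)
  by_cases h2 : i < 2160
  · exact chunk_spec _ _ _ c2_2 i (by omega) (by omega)
  by_cases h3 : i < 2880
  · exact chunk_spec _ _ _ c2_3 i (by omega) (by omega)
  by_cases h4 : i < 3600
  · exact chunk_spec _ _ _ c2_4 i (by omega) (by omega)
  by_cases h5 : i < 4320
  · exact chunk_spec _ _ _ c2_5 i (by omega) (by omega)
  by_cases h6 : i < 5040
  · exact chunk_spec _ _ _ c2_6 i (by omega) (by omega)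
  by_cases h7 : i < 5760
  · exact chunk_spec _ _ _ c2_7 i (by omega) (by omega)
  by_cases h8 : i < 6480
  · exact chunk_spec _ _ _ c2_8 i (by omega) (by omega)
  by_cases h9 : i < 7200
  · exact chunk_spec _ _ _ c2_9 i (by omega) (by omega)
  exact chunk_spec _ _ _ c2_10 i (by omega) (by omega)

theorem all3 : ∀ i < 7920, k3 i = true := by
  intro i hi
  by_cases h0 : i < 720
  · exact chunk_spec _ _ _ c3_0 i (by omega) (by omega)
  by_cases h1 : i < 1440
  · exact chunk_spec _ _ _ c3_1 i (by omega) (by omega)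
  by_cases h2 : i < 2160
  · exact chunk_spec _ _ _ c3_2 i (by omega) (by omega)
  by_cases h3 : i < 2880
  · exact chunk_spec _ _ _ c3_3 i (by omega) (by omega)
  by_cases h4 : i < 3600
  · exact chunk_spec _ _ _ c3_4 i (by omega) (by omega)
  by_cases h5 : i < 4320
  · exact chunk_spec _ _ _ c3_5 i (by omega) (by omega)
  by_cases h6 : i < 5040
  · exact chunk_spec _ _ _ c3_6 i (by omega) (by omega)
  by_cases h7 : i < 5760
  · exact chunk_spec _ _ _ c3_7 i (by omega) (by omega)
  by_cases h8 : i < 6480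
  · exact chunk_spec _ _ _ c3_8 i (by omega) (by omega)
  by_cases h9 : i < 7200
  · exact chunk_spec _ _ _ c3_9 i (by omega) (by omega)
  exact chunk_spec _ _ _ c3_10 i (by omega) (by omega)

theorem all4 : ∀ i < 7920, k4 i = true := by
  intro i hi
  by_cases h0 : i < 720
  · exact chunk_spec _ _ _ c4_0 i (by omega) (by omega)
  by_cases h1 : i < 1440
  · exact chunk_spec _ _ _ c4_1 i (by omega) (by omega)
  by_cases h2 : i < 2160
  · exact chunk_spec _ _ _ c4_2 i (by omega) (by omega)
  by_cases h3 : i < 2880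
  · exact chunk_spec _ _ _ c4_3 i (by omega) (by omega)
  by_cases h4 : i < 3600
  · exact chunk_spec _ _ _ c4_4 i (by omega) (by omega)
  by_cases h5 : i < 4320
  · exact chunk_spec _ _ _ c4_5 i (by omega) (by omega)
  by_cases h6 : i < 5040
  · exact chunk_spec _ _ _ c4_6 i (by omega) (by omega)
  by_cases h7 : i < 5760
  · exact chunk_spec _ _ _ c4_7 i (by omega) (by omega)
  by_cases h8 : i < 6480
  · exact chunk_spec _ _ _ c4_8 i (by omega) (by omega)
  by_cases h9 : i < 7200
  · exact chunk_spec _ _ _ c4_9 i (by omega) (by omega)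
  exact chunk_spec _ _ _ c4_10 i (by omega) (by omega)

theorem all5 : ∀ i < 7920, k5 i = true := by
  intro i hi
  by_cases h0 : i < 720
  · exact chunk_spec _ _ _ c5_0 i (by omega) (by omega)
  by_cases h1 : i < 1440
  · exact chunk_spec _ _ _ c5_1 i (by omega) (by omega)
  by_cases h2 : i < 2160
  · exact chunk_spec _ _ _ c5_2 i (by omega) (by omega)
  by_cases h3 : i < 2880
  · exact chunk_spec _ _ _ c5_3 i (by omega) (by omega)
  by_cases h4 : i < 3600
  · exact chunk_spec _ _ _ c5_4 i (by omega) (by omega)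
  by_cases h5 : i < 4320
  · exact chunk_spec _ _ _ c5_5 i (by omega) (by omega)
  by_cases h6 : i < 5040
  · exact chunk_spec _ _ _ c5_6 i (by omega) (by omega)
  by_cases h7 : i < 5760
  · exact chunk_spec _ _ _ c5_7 i (by omega) (by omega)
  by_cases h8 : i < 6480
  · exact chunk_spec _ _ _ c5_8 i (by omega) (by omega)
  by_cases h9 : i < 7200
  · exact chunk_spec _ _ _ c5_9 i (by omega) (by omega)
  exact chunk_spec _ _ _ c5_10 i (by omega) (by omega)

theorem all6 : ∀ i < 7920, k6 i = true := by
  intro i hi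
  by_cases h0 : i < 720
  · exact chunk_spec _ _ _ c6_0 i (by omega) (by omega)
  by_cases h1 : i < 1440
  · exact chunk_spec _ _ _ c6_1 i (by omega) (by omega)
  by_cases h2 : i < 2160
  · exact chunk_spec _ _ _ c6_2 i (by omega) (by omega)
  by_cases h3 : i < 2880
  · exact chunk_spec _ _ _ c6_3 i (by omega) (by omega)
  by_cases h4 : i < 3600
  · exact chunk_spec _ _ _ c6_4 i (by omega) (by omega)
  by_cases h5 : i < 4320
  · exact chunk_spec _ _ _ c6_5 i (by omega) (by omega)
  by_cases h6 : i < 5040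
  · exact chunk_spec _ _ _ c6_6 i (by omega) (by omega)
  by_cases h7 : i < 5760
  · exact chunk_spec _ _ _ c6_7 i (by omega) (by omega)
  by_cases h8 : i < 6480
  · exact chunk_spec _ _ _ c6_8 i (by omega) (by omega)
  by_cases h9 : i < 7200
  · exact chunk_spec _ _ _ c6_9 i (by omega) (by omega)
  exact chunk_spec _ _ _ c6_10 i (by omega) (by omega)

end Pool.Agent.K3h45.LM
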