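import Pool.Agent.K3h45.LM.M3

/-!
# The checks on the solutions
-/

set_option autoImplicit false
set_option linter.unusedSectionVars false

namespace Pool.Agent.K3h45.LM

theorem d8 : allT 10 k8 = true := by decide +kernel
theorem d9 : allT 10 k9 = true := by decide +kernel

theorem dl_true : dlC true 0 = 0 ∧ dlC true 1 = 121 ∧ dlC true 2 = 0 ∧ dlC true 3 = -128 ∧
    dlC true 4 = 128 ∧ dlC true 5 = 0 ∧ dlC true 6 = 0 ∧ dlC true 7 = 0 ∧ dlC true 8 = 0 ∧
    dlC true 9 = 0 := by decide +kernel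

theorem dl_false : dlC false 0 = 0 ∧ dlC false 1 = 121 ∧ dlC false 2 = 0 ∧ dlC false 3 = -128 ∧
    dlC false 4 = 128 ∧ dlC false 5 = 0 ∧ dlC false 6 = 0 ∧ dlC false 7 = 0 ∧ dlC false 8 = 0 ∧
    dlC false 9 = 0 := by decide +kernel

end Pool.Agent.K3h45.LM
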