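import Pool.Agent.W616.KSum
import Pool.Agent.Y472.RH.Main

/-!
# The numbers of representations of a knot group with given meridian and longitude

Braids on three strands: change of the base point, conjugation, reversal of the orientation.
-/

set_option autoImplicit false
set_option linter.unusedSectionVars false

namespace Pool.Agent.K3h45.LM

open Pool.Agent.W616

section comp

variable {G : Type*} [Group G] {m : ℕ}

theorem run_comp (w₁ w₂ : Braid m) (u : Fin (m + 1) → G) (p : Fin (m + 1)) :
    run (w₁ ++ w₂) (fresh u) p = ⟨labs w₂ (labs w₁ u) p,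
      accs w₁ u (perm w₂ p) * accs w₂ (labs w₁ u) p, perm w₁ (perm w₂ p)⟩ := by
  rw [run_append]
  have h : run w₁ (fresh u) =
      fun q => (fresh (labs w₁ u) q).shift (accs w₁ u) (perm w₁) := by
    funext q
    rw [run_eq]
    simp [fresh, Strand.shift]
  rw [h, run_shift]
  beta_reduce
  rw [run_eq]
  rfl

theorem labs_append (w₁ w₂ : Braid m) (u : Fin (m + 1) → G) :
    labs (w₁ ++ w₂) u = labs w₂ (labs w₁ u) := by
  funext p
  rw [labs, run_comp]

theorem accs_append (w₁ w₂ : Braid m) (u : Fin (m + 1) → G) (p : Fin (m + 1)) :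
    accs (w₁ ++ w₂) u p = accs w₁ u (perm w₂ p) * accs w₂ (labs w₁ u) p := by
  rw [accs, run_comp]

theorem perm_append (w₁ w₂ : Braid m) (p : Fin (m + 1)) :
    perm (w₁ ++ w₂) p = perm w₁ (perm w₂ p) := by
  rw [← org_eq (w₁ ++ w₂) (fun _ => (1 : Unit)) p, run_comp]

theorem perm_single (g : Fin m × Bool) (p : Fin (m + 1)) : perm [g] (perm [g] p) = p := by
  have hne : g.1.castSucc ≠ g.1.succ := (Fin.castSucc_lt_succ).ne
  have h : ∀ q, perm [g] q = Equiv.swap g.1.castSucc g.1.succ q := by
    intro q
    change (crossing g (fresh (fun _ => (1 : Unit))) q).org = _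
    unfold crossing
    dsimp only
    by_cases h1 : q = g.1.castSucc
    · subst h1
      rw [Equiv.swap_apply_left]
      by_cases hb : g.2 = true
      · rw [if_pos hb, if_pos rfl]
        rfl
      · rw [if_neg hb, if_neg hne, if_pos rfl]
        rfl
    · by_cases h2 : q = g.1.succ
      · subst h2
        rw [Equiv.swap_apply_right]
        by_cases hb : g.2 = true
        · rw [if_pos hb, if_neg hne.symm, if_pos rfl]
          rfl
        · rw [if_neg hb, if_pos rfl]
          rfl
      · rw [Equiv.swap_apply_of_ne_of_ne h1 h2]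
        by_cases hb : g.2 = true
        · rw [if_pos hb, if_neg h1, if_neg h2]
          rfl
        · rw [if_neg hb, if_neg h2, if_neg h1]
          rfl
  rw [h, h, Equiv.swap_apply_self]

end comp

section three

variable {G : Type*} [Group G]

/-- the base paths for the diagram seen from behind -/
def kap (u : Fin 3 → G) : Fin 3 → G := ![1, u 0, u 1 * u 0]

/-- the meridians for the diagram seen from behind, with the reversed orientation -/
def tht (u : Fin 3 → G) : Fin 3 → G := fun p => (kap u p)⁻¹ * (u p)⁻¹ * kap u p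

theorem tht0 (u : Fin 3 → G) : tht u 0 = (u 0)⁻¹ := by simp [tht, kap]
theorem tht1 (u : Fin 3 → G) : tht u 1 = (u 0)⁻¹ * (u 1)⁻¹ * u 0 := by simp [tht, kap]
theorem tht2 (u : Fin 3 → G) : tht u 2 = (u 1 * u 0)⁻¹ * (u 2)⁻¹ * (u 1 * u 0) := by
  simp [tht, kap]

theorem tht_tht (u : Fin 3 → G) : tht (tht u) = u := by
  funext p
  fin_cases p
  · change tht (tht u) 0 = u 0
    rw [tht0, tht0, inv_inv]
  · change tht (tht u) 1 = u 1
    rw [tht1, tht0, tht1]
    group
  · change tht (tht u) 2 = u 2
    rw [tht2, tht0, tht1, tht2]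
    group

theorem rev_single (g : Fin 2 × Bool) (u : Fin 3 → G) :
    labs [g] (tht (labs [g] u)) = tht u ∧
      ∀ q, accs [g] (tht (labs [g] u)) (perm [g] q) =
        (kap (labs [g] u) q)⁻¹ * (accs [g] u q)⁻¹ * kap u (perm [g] q) := by
  rcases g with ⟨j, b⟩
  fin_cases j <;> cases b
  · have l : labs [((0 : Fin 2), false)] u = ![u 1, u 1 * u 0 * (u 1)⁻¹, u 2] := by
      funext p; fin_cases p <;> rfl
    have a : ∀ v : Fin 3 → G, accs [((0 : Fin 2), false)] v = ![1, 1 * (v 1)⁻¹, 1] := by
      intro v; funext p; fin_cases p <;> rfl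
    have l' : ∀ v : Fin 3 → G, labs [((0 : Fin 2), false)] v = ![v 1, v 1 * v 0 * (v 1)⁻¹, v 2] := by
      intro v; funext p; fin_cases p <;> rfl
    have p0 : perm [((0 : Fin 2), false)] 0 = 1 := rfl
    have p1 : perm [((0 : Fin 2), false)] 1 = 0 := rfl
    have p2 : perm [((0 : Fin 2), false)] 2 = 2 := rfl
    constructor
    · change labs [((0 : Fin 2), false)] (tht (labs [((0 : Fin 2), false)] u)) = tht u
      rw [l', l]
      funext p
      fin_cases p <;> simp [tht, kap] <;> group
    · intro q
      change accs [((0 : Fin 2), false)] (tht (labs [((0 : Fin 2), false)] u))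
        (perm [((0 : Fin 2), false)] q) = _
      change _ = (kap (labs [((0 : Fin 2), false)] u) q)⁻¹ *
        (accs [((0 : Fin 2), false)] u q)⁻¹ * kap u (perm [((0 : Fin 2), false)] q)
      rw [a, a, l]
      fin_cases q
      · change ![_, _, _] (perm [((0 : Fin 2), false)] 0) = _ * kap u (perm [((0 : Fin 2), false)] 0)
        rw [p0]
        simp [tht, kap]
      · change ![_, _, _] (perm [((0 : Fin 2), false)] 1) = _ * kap u (perm [((0 : Fin 2), false)] 1)
        rw [p1]
        simp [tht, kap]
      · change ![_, _, _] (perm [((0 : Fin 2), false)] 2) = _ * kap u (perm [((0 : Fin 2), false)] 2)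
        rw [p2]
        simp [tht, kap]
  · have a : ∀ v : Fin 3 → G, accs [((0 : Fin 2), true)] v = ![1 * v 0, 1, 1] := by
      intro v; funext p; fin_cases p <;> rfl
    have l' : ∀ v : Fin 3 → G, labs [((0 : Fin 2), true)] v = ![(v 0)⁻¹ * v 1 * v 0, v 0, v 2] := by
      intro v; funext p; fin_cases p <;> rfl
    have p0 : perm [((0 : Fin 2), true)] 0 = 1 := rfl
    have p1 : perm [((0 : Fin 2), true)] 1 = 0 := rfl
    have p2 : perm [((0 : Fin 2), true)] 2 = 2 := rfl
    constructor
    · change labs [((0 : Fin 2), true)] (tht (labs [((0 : Fin 2), true)] u)) = tht u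
      rw [l', l']
      funext p
      fin_cases p <;> simp [tht, kap] <;> group
    · intro q
      change accs [((0 : Fin 2), true)] (tht (labs [((0 : Fin 2), true)] u))
        (perm [((0 : Fin 2), true)] q) = _
      change _ = (kap (labs [((0 : Fin 2), true)] u) q)⁻¹ *
        (accs [((0 : Fin 2), true)] u q)⁻¹ * kap u (perm [((0 : Fin 2), true)] q)
      rw [a, a, l']
      fin_cases q
      · change ![_, _, _] (perm [((0 : Fin 2), true)] 0) = _ * kap u (perm [((0 : Fin 2), true)] 0)
        rw [p0]
        simp [tht, kap]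
      · change ![_, _, _] (perm [((0 : Fin 2), true)] 1) = _ * kap u (perm [((0 : Fin 2), true)] 1)
        rw [p1]
        simp [tht, kap]
      · change ![_, _, _] (perm [((0 : Fin 2), true)] 2) = _ * kap u (perm [((0 : Fin 2), true)] 2)
        rw [p2]
        simp [tht, kap] <;> group
  · have a : ∀ v : Fin 3 → G, accs [((1 : Fin 2), false)] v = ![1, 1, 1 * (v 2)⁻¹] := by
      intro v; funext p; fin_cases p <;> rfl
    have l' : ∀ v : Fin 3 → G, labs [((1 : Fin 2), false)] v = ![v 0, v 2, v 2 * v 1 * (v 2)⁻¹] := by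
      intro v; funext p; fin_cases p <;> rfl
    have p0 : perm [((1 : Fin 2), false)] 0 = 0 := rfl
    have p1 : perm [((1 : Fin 2), false)] 1 = 2 := rfl
    have p2 : perm [((1 : Fin 2), false)] 2 = 1 := rfl
    constructor
    · change labs [((1 : Fin 2), false)] (tht (labs [((1 : Fin 2), false)] u)) = tht u
      rw [l', l']
      funext p
      fin_cases p <;> simp [tht, kap] <;> group
    · intro q
      change accs [((1 : Fin 2), false)] (tht (labs [((1 : Fin 2), false)] u))
        (perm [((1 : Fin 2), false)] q) = _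
      change _ = (kap (labs [((1 : Fin 2), false)] u) q)⁻¹ *
        (accs [((1 : Fin 2), false)] u q)⁻¹ * kap u (perm [((1 : Fin 2), false)] q)
      rw [a, a, l']
      fin_cases q
      · change ![_, _, _] (perm [((1 : Fin 2), false)] 0) = _ * kap u (perm [((1 : Fin 2), false)] 0)
        rw [p0]
        simp [tht, kap]
      · change ![_, _, _] (perm [((1 : Fin 2), false)] 1) = _ * kap u (perm [((1 : Fin 2), false)] 1)
        rw [p1]
        simp [tht, kap] <;> group
      · change ![_, _, _] (perm [((1 : Fin 2), false)] 2) = _ * kap u (perm [((1 : Fin 2), false)] 2)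
        rw [p2]
        simp [tht, kap] <;> group
  · have a : ∀ v : Fin 3 → G, accs [((1 : Fin 2), true)] v = ![1, 1 * v 1, 1] := by
      intro v; funext p; fin_cases p <;> rfl
    have l' : ∀ v : Fin 3 → G, labs [((1 : Fin 2), true)] v = ![v 0, (v 1)⁻¹ * v 2 * v 1, v 1] := by
      intro v; funext p; fin_cases p <;> rfl
    have p0 : perm [((1 : Fin 2), true)] 0 = 0 := rfl
    have p1 : perm [((1 : Fin 2), true)] 1 = 2 := rfl
    have p2 : perm [((1 : Fin 2), true)] 2 = 1 := rfl
    constructor
    · change labs [((1 : Fin 2), true)] (tht (labs [((1 : Fin 2), true)] u)) = tht u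
      rw [l', l']
      funext p
      fin_cases p <;> simp [tht, kap] <;> group
    · intro q
      change accs [((1 : Fin 2), true)] (tht (labs [((1 : Fin 2), true)] u))
        (perm [((1 : Fin 2), true)] q) = _
      change _ = (kap (labs [((1 : Fin 2), true)] u) q)⁻¹ *
        (accs [((1 : Fin 2), true)] u q)⁻¹ * kap u (perm [((1 : Fin 2), true)] q)
      rw [a, a, l']
      fin_cases q
      · change ![_, _, _] (perm [((1 : Fin 2), true)] 0) = _ * kap u (perm [((1 : Fin 2), true)] 0)
        rw [p0]
        simp [tht, kap]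
      · change ![_, _, _] (perm [((1 : Fin 2), true)] 1) = _ * kap u (perm [((1 : Fin 2), true)] 1)
        rw [p1]
        simp [tht, kap] <;> group
      · change ![_, _, _] (perm [((1 : Fin 2), true)] 2) = _ * kap u (perm [((1 : Fin 2), true)] 2)
        rw [p2]
        simp [tht, kap] <;> group

theorem rev_all (w : Braid 2) (u : Fin 3 → G) :
    labs w.reverse (tht (labs w u)) = tht u ∧
      (∀ q, perm w.reverse (perm w q) = q) ∧
      ∀ q, accs w.reverse (tht (labs w u)) (perm w q) =
        (kap (labs w u) q)⁻¹ * (accs w u q)⁻¹ * kap u (perm w q) := by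
  induction w generalizing u with
  | nil =>
    refine ⟨rfl, fun q => rfl, fun q => ?_⟩
    change (1 : G) = (kap u q)⁻¹ * (1 : G)⁻¹ * kap u q
    simp
  | cons g w ih =>
    have e : g :: w = [g] ++ w := rfl
    have hl : labs (g :: w) u = labs w (labs [g] u) := by rw [e, labs_append]
    obtain ⟨i1, i2, i3⟩ := ih (labs [g] u)
    obtain ⟨s1, s2⟩ := rev_single g u
    have hp : ∀ q, perm (g :: w) q = perm [g] (perm w q) := fun q => by rw [e, perm_append]
    have hr : (g :: w).reverse = w.reverse ++ [g] := List.reverse_cons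
    refine ⟨?_, fun q => ?_, fun q => ?_⟩
    · rw [hr, labs_append, hl, i1, s1]
    · rw [hr, perm_append, hp, perm_single, i2]
    · rw [hr, accs_append, hl, hp, perm_single, i1, i3, s2 (perm w q)]
      have e2 : accs (g :: w) u q = accs [g] u (perm w q) * accs w (labs [g] u) q := by
        rw [e, accs_append]
      rw [e2]
      group

end three

end Pool.Agent.K3h45.LM
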