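import Pool.Agent.K3h45.LM.G1

/-!
# The numbers of homomorphisms for the surgeries on the two sums
-/

set_option autoImplicit false
set_option linter.unusedSectionVars false

namespace Pool.Agent.K3h45.LM

open Pool.Agent.W616
open QModule (l3 r3 l3_inj r3_inj)

section N

variable {G : Type} [Group G]

/-- the representations with the meridian `x` of the strand `b` and the longitude `y` -/
abbrev Sl (w : Braid 2) (b : Fin 3) (x y : G) : Type :=
  {u : Fin 3 → G // Closed w u ∧ u b = x ∧ longAux w u b 3 = y}

/-- their number -/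
noncomputable def N (w : Braid 2) (b : Fin 3) (x y : G) : ℕ := Nat.card (Sl w b x y)

theorem long3 (w : Braid 2) (u : Fin 3 → G) (b : Fin 3) : longAux w u b 3 =
    accs w u (perm w (perm w b)) * (accs w u (perm w b) * accs w u b) := by
  rw [longAux_succ, longAux_succ, longAux_succ, longAux_zero, mul_one]
  rfl

theorem accs_conj (g : G) (w : Braid 2) (u : Fin 3 → G) (p : Fin 3) :
    accs w (fun q => g * u q * g⁻¹) p = g * accs w u p * g⁻¹ :=
  accs_map (MulAut.conj g).toMonoidHom w u p

theorem long_conj (g : G) (w : Braid 2) (u : Fin 3 → G) (b : Fin 3) :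
    longAux w (fun q => g * u q * g⁻¹) b 3 = g * longAux w u b 3 * g⁻¹ :=
  longAux_map (MulAut.conj g).toMonoidHom w u b 3

theorem N_conj (g : G) (w : Braid 2) (b : Fin 3) (x y : G) :
    N w b (g * x * g⁻¹) (g * y * g⁻¹) = N w b x y := by
  unfold N
  refine Nat.card_congr
    { toFun := fun u => ⟨fun q => g⁻¹ * u.1 q * g⁻¹⁻¹, ?_, ?_, ?_⟩
      invFun := fun u => ⟨fun q => g * u.1 q * g⁻¹, ?_, ?_, ?_⟩
      left_inv := ?_
      right_inv := ?_ }
  · exact (closed_map_conj g⁻¹ w u.1).2 u.2.1
  · beta_reduce
    rw [u.2.2.1]; group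
  · rw [long_conj, u.2.2.2]; group
  · exact (closed_map_conj g w u.1).2 u.2.1
  · beta_reduce
    rw [u.2.2.1]
  · rw [long_conj, u.2.2.2]
  · intro u
    apply Subtype.ext
    funext p
    simp only
    group
  · intro u
    apply Subtype.ext
    funext p
    simp only
    group

/-- change of the base point -/
theorem N_base (w : Braid 2) (b : Fin 3) (x y : G) (h3 : perm w (perm w (perm w b)) = b) :
    N w b x y = N w (perm w b) x y := by
  unfold N
  have key : ∀ u : Fin 3 → G, Closed w u → u b = (accs w u b)⁻¹ * u (perm w b) * accs w u b := by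
    intro u hu
    rw [← labs_conj w u b, hu b]
  refine Nat.card_congr
    { toFun := fun u => ⟨fun q => (accs w u.1 b)⁻¹ * u.1 q * (accs w u.1 b)⁻¹⁻¹, ?_, ?_, ?_⟩
      invFun := fun u => ⟨fun q => (accs w u.1 b) * u.1 q * (accs w u.1 b)⁻¹, ?_, ?_, ?_⟩
      left_inv := ?_
      right_inv := ?_ }
  · exact (closed_map_conj _ w u.1).2 u.2.1
  · beta_reduce
    rw [inv_inv, ← key u.1 u.2.1, u.2.2.1]
  · refine Eq.trans ?_ u.2.2.2
    rw [long_conj, long3, long3, h3]
    group
  · exact (closed_map_conj _ w u.1).2 u.2.1
  · beta_reduce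
    rw [key u.1 u.2.1, u.2.2.1]
    group
  · refine Eq.trans ?_ u.2.2.2
    rw [long_conj, long3, long3, h3]
    group
  · intro u
    apply Subtype.ext
    funext p
    simp only [accs_conj]
    group
  · intro u
    apply Subtype.ext
    funext p
    simp only [accs_conj]
    group

theorem closed_tht (w : Braid 2) (u : Fin 3 → G) (h : Closed w u) : Closed w.reverse (tht u) := by
  intro p
  have h1 := (rev_all w u).1
  have h2 : labs w u = u := funext h
  rw [h2] at h1
  exact congrFun h1 p

theorem long_tht (w : Braid 2) (u : Fin 3 → G) (h : Closed w u)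
    (h3 : perm w (perm w (perm w 0)) = 0) :
    longAux w.reverse (tht u) 0 3 = (longAux w u 0 3)⁻¹ := by
  obtain ⟨_, r2, r3'⟩ := rev_all w u
  have h2 : labs w u = u := funext h
  rw [h2] at r3'
  have q1 : perm w.reverse 0 = perm w (perm w 0) := by
    conv_lhs => rw [← h3]
    exact r2 _
  have q2 : perm w.reverse (perm w.reverse 0) = perm w 0 := by
    rw [q1]
    exact r2 _
  have a0 := r3' (perm w (perm w 0))
  rw [h3] at a0
  have a1 := r3' (perm w 0)
  have a2 := r3' 0
  rw [long3, long3, q2, q1, a0, a1, a2]
  have k0 : kap u 0 = 1 := rfl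
  rw [k0]
  group

/-- reversal of the orientation -/
theorem N_rev (w : Braid 2) (h3 : perm w (perm w (perm w 0)) = 0)
    (h3' : perm w.reverse (perm w.reverse (perm w.reverse 0)) = 0) (x y : G) :
    N w.reverse 0 x y = N w 0 x⁻¹ y⁻¹ := by
  unfold N
  refine Nat.card_congr
    { toFun := fun u => ⟨tht u.1, ?_, ?_, ?_⟩
      invFun := fun u => ⟨tht u.1, ?_, ?_, ?_⟩
      left_inv := fun u => Subtype.ext (tht_tht u.1)
      right_inv := fun u => Subtype.ext (tht_tht u.1) }
  · have := closed_tht w.reverse u.1 u.2.1
    rwa [List.reverse_reverse] at this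
  · rw [tht0, u.2.2.1]
  · have := long_tht w.reverse u.1 u.2.1 h3'
    rw [List.reverse_reverse] at this
    rw [this, u.2.2.2]
  · exact closed_tht w u.1 u.2.1
  · rw [tht0, u.2.2.1, inv_inv]
  · rw [long_tht w u.1 u.2.1 h3, u.2.2.2, inv_inv]

end N

/-! ### The word -/

/-- The braid word `σ_1^-1 σ_2 σ_1^-1 σ_2 σ_1^-2 σ_2^2`; its closure is the knot `8_17`. -/
def wordM : Braid 2 :=
  [(0, false), (1, true), (0, false), (1, true), (0, false), (0, false), (1, true), (1, true)]

section sum

variable {G : Type*} [Group G]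

theorem long_MM (x : Fin 5 → G) (h : Closed wordM (fun q => x (l3 q))) :
    longAux (left3 wordM ++ right3 wordM) x 2 5 = longAux wordM (fun q => x (l3 q)) 2 3 *
      longAux wordM (fun q => x (r3 q)) 0 3 := by
  have P0 : perm wordM 0 = 2 := by decide
  have P1 : perm wordM 1 = 0 := by decide
  have P2 : perm wordM 2 = 1 := by decide
  have S0 : perm (left3 wordM ++ right3 wordM) 0 = 2 := by decide
  have S1 : perm (left3 wordM ++ right3 wordM) 1 = 0 := by decide
  have S2 : perm (left3 wordM ++ right3 wordM) 2 = 4 := by decide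
  have S3 : perm (left3 wordM ++ right3 wordM) 3 = 1 := by decide
  have S4 : perm (left3 wordM ++ right3 wordM) 4 = 3 := by decide
  have k2 : accs (left3 wordM ++ right3 wordM) x 2 = accs wordM (fun q => x (r3 q)) 0 := by
    have := accs_right wordM wordM x h 0
    rw [P0] at this
    exact this.trans (by simp [midA])
  have k3 : accs (left3 wordM ++ right3 wordM) x 3 = accs wordM (fun q => x (l3 q)) 2 *
      accs wordM (fun q => x (r3 q)) 1 := by
    have := accs_right wordM wordM x h 1
    rw [P1] at this
    exact this.trans (by simp [midA])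
  have k4 : accs (left3 wordM ++ right3 wordM) x 4 = accs wordM (fun q => x (r3 q)) 2 := by
    have := accs_right wordM wordM x h 2
    rw [P2] at this
    exact this.trans (by simp [midA])
  have k0 : accs (left3 wordM ++ right3 wordM) x 0 = accs wordM (fun q => x (l3 q)) 0 :=
    accs_left0 wordM wordM x
  have k1 : accs (left3 wordM ++ right3 wordM) x 1 = accs wordM (fun q => x (l3 q)) 1 :=
    accs_left1 wordM wordM x
  simp only [longAux_succ, longAux_zero, Function.iterate_succ, Function.iterate_zero,
    Function.comp, id, S0, S1, S2, S3, S4, P0, P1, P2, k0, k1, k2, k3, k4, mul_assoc, mul_one]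

theorem long_MrM (x : Fin 5 → G) (h : Closed wordM (fun q => x (l3 q))) :
    longAux (left3 wordM ++ right3 wordM.reverse) x 2 5 =
      longAux wordM (fun q => x (l3 q)) 2 3 *
      longAux wordM.reverse (fun q => x (r3 q)) 0 3 := by
  have P0 : perm wordM 0 = 2 := by decide
  have P1 : perm wordM 1 = 0 := by decide
  have P2 : perm wordM 2 = 1 := by decide
  have R0 : perm wordM.reverse 0 = 1 := by decide
  have R1 : perm wordM.reverse 1 = 2 := by decide
  have R2 : perm wordM.reverse 2 = 0 := by decide
  have S0 : perm (left3 wordM ++ right3 wordM.reverse) 0 = 2 := by decide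
  have S1 : perm (left3 wordM ++ right3 wordM.reverse) 1 = 0 := by decide
  have S2 : perm (left3 wordM ++ right3 wordM.reverse) 2 = 3 := by decide
  have S3 : perm (left3 wordM ++ right3 wordM.reverse) 3 = 4 := by decide
  have S4 : perm (left3 wordM ++ right3 wordM.reverse) 4 = 1 := by decide
  have k2 : accs (left3 wordM ++ right3 wordM.reverse) x 2 =
      accs wordM.reverse (fun q => x (r3 q)) 0 := by
    have := accs_right wordM wordM.reverse x h 0
    rw [R0] at this
    exact this.trans (by simp [midA])
  have k3 : accs (left3 wordM ++ right3 wordM.reverse) x 3 =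
      accs wordM.reverse (fun q => x (r3 q)) 1 := by
    have := accs_right wordM wordM.reverse x h 1
    rw [R1] at this
    exact this.trans (by simp [midA])
  have k4 : accs (left3 wordM ++ right3 wordM.reverse) x 4 =
      accs wordM (fun q => x (l3 q)) 2 *
      accs wordM.reverse (fun q => x (r3 q)) 2 := by
    have := accs_right wordM wordM.reverse x h 2
    rw [R2] at this
    exact this.trans (by simp [midA])
  have k0 : accs (left3 wordM ++ right3 wordM.reverse) x 0 = accs wordM (fun q => x (l3 q)) 0 :=
    accs_left0 wordM wordM.reverse x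
  have k1 : accs (left3 wordM ++ right3 wordM.reverse) x 1 = accs wordM (fun q => x (l3 q)) 1 :=
    accs_left1 wordM wordM.reverse x
  simp only [longAux_succ, longAux_zero, Function.iterate_succ, Function.iterate_zero,
    Function.comp, id, S0, S1, S2, S3, S4, P0, P1, P2, R0, R1, R2, k0, k1, k2, k3, k4, mul_assoc,
    mul_one]

end sum

end Pool.Agent.K3h45.LM
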