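import Pool.Agent.K3h45.LM.G2

/-!
# The difference of the numbers of homomorphisms
-/

set_option autoImplicit false
set_option linter.unusedSectionVars false

namespace Pool.Agent.K3h45.LM

open Pool.Agent.W616
open QModule (l3 r3 l3_inj r3_inj)

section card

variable {G : Type} [Group G]

/-- solutions for the sum, from solutions for the summands -/
def gl (y z : Fin 3 → G) : Fin 5 → G := ![y 0, y 1, y 2, z 1, z 2]

theorem gl_l (y z : Fin 3 → G) : (fun q => gl y z (l3 q)) = y := by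
  funext q
  fin_cases q <;> rfl

theorem gl_r (y z : Fin 3 → G) (h : y 2 = z 0) : (fun q => gl y z (r3 q)) = z := by
  funext q
  fin_cases q
  · exact h
  · rfl
  · rfl

/-- what we need to know about the second summand -/
structure Good2 (G : Type) [Group G] (w : Braid 2) : Prop where
  hw : writhe (left3 wordM ++ right3 w) = 0
  hlong : ∀ x : Fin 5 → G, Closed wordM (fun q => x (l3 q)) →
      longAux (left3 wordM ++ right3 w) x 2 5 = longAux wordM (fun q => x (l3 q)) 2 3 *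
        longAux w (fun q => x (r3 q)) 0 3

theorem good_M : Good2 G wordM := ⟨by decide, long_MM⟩
theorem good_rM : Good2 G wordM.reverse := ⟨by decide, long_MrM⟩

/-- the solutions for the surgery on the sum -/
abbrev SolS (G : Type) [Group G] (w : Braid 2) (f : ℤ) : Type :=
  {x : Fin 5 → G // Closed (left3 wordM ++ right3 w) x ∧
  x 2 ^ (f - writhe (left3 wordM ++ right3 w)) *
    longAux (left3 wordM ++ right3 w) x 2 (4 + 1) = 1}

/-- pairs of solutions that fit together -/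
abbrev SolP (G : Type) [Group G] (w : Braid 2) (f : ℤ) : Type :=
  {p : (Fin 3 → G) × (Fin 3 → G) // (Closed wordM p.1 ∧ Closed w p.2) ∧ p.1 2 = p.2 0 ∧
    longAux w p.2 0 3 = (longAux wordM p.1 2 3)⁻¹ * (p.1 2) ^ (-f)}

theorem rel_aux (x a b : G) (f g : ℤ) (hg : g = 0) :
    x ^ (f - g) * (a * b) = 1 ↔ b = a⁻¹ * x ^ (-f) := by
  rw [hg, sub_zero, zpow_neg]
  constructor
  · intro h
    have h1 : a * b = (x ^ f)⁻¹ := (inv_eq_of_mul_eq_one_right h).symm
    rw [← h1]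
    group
  · intro h
    rw [h]
    group

theorem rel_iff (w : Braid 2) (hg : Good2 G w) (f : ℤ) (x : Fin 5 → G)
    (hc : Closed wordM (fun q => x (l3 q))) :
    x 2 ^ (f - writhe (left3 wordM ++ right3 w)) *
      longAux (left3 wordM ++ right3 w) x 2 (4 + 1) = 1 ↔
    longAux w (fun q => x (r3 q)) 0 3 =
      (longAux wordM (fun q => x (l3 q)) 2 3)⁻¹ * (x 2) ^ (-f) := by
  have h3 : longAux (left3 wordM ++ right3 w) x 2 (4 + 1) =
    longAux wordM (fun q => x (l3 q)) 2 3 * longAux w (fun q => x (r3 q)) 0 3 := hg.hlong x hc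
  rw [h3]
  exact rel_aux _ _ _ _ _ hg.hw

/-- the solutions for the sum, from those for the summands -/
def sumEq (w : Braid 2) (hg : Good2 G w) (f : ℤ) : SolS G w f ≃ SolP G w f where
  toFun x := ⟨(fun q => x.1 (l3 q), fun q => x.1 (r3 q)), (closed_sum wordM w x.1).1 x.2.1, rfl,
    (rel_iff w hg f x.1 ((closed_sum wordM w x.1).1 x.2.1).1).1 x.2.2⟩
  invFun s :=
    have hl := gl_l s.1.1 s.1.2
    have hr := gl_r s.1.1 s.1.2 s.2.2.1
    have hc1 : Closed wordM (fun q => gl s.1.1 s.1.2 (l3 q)) := by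
      rw [hl]; exact s.2.1.1
    have hc2 : Closed w (fun q => gl s.1.1 s.1.2 (r3 q)) := by
      rw [hr]; exact s.2.1.2
    ⟨gl s.1.1 s.1.2, (closed_sum wordM w _).2 ⟨hc1, hc2⟩,
      (rel_iff w hg f _ hc1).2 (by rw [hl, hr]; exact s.2.2.2)⟩
  left_inv x := by
    apply Subtype.ext
    funext p
    fin_cases p <;> rfl
  right_inv s := Subtype.ext (Prod.ext (gl_l s.1.1 s.1.2) (gl_r s.1.1 s.1.2 s.2.2.1))

/-- meridian and longitude -/
def phi (w : Braid 2) (f : ℤ) (p : SolP G w f) : G × G := (p.1.1 2, longAux wordM p.1.1 2 3)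

/-- the fibres -/
def fibEq (w : Braid 2) (f : ℤ) (z : G × G) : {p : SolP G w f // phi w f p = z} ≃
    Sl wordM 2 z.1 z.2 × Sl w 0 z.1 (z.2⁻¹ * z.1 ^ (-f)) where
  toFun p := (⟨p.1.1.1, p.1.2.1.1, congrArg Prod.fst p.2, congrArg Prod.snd p.2⟩,
    ⟨p.1.1.2, p.1.2.1.2, p.1.2.2.1.symm.trans (congrArg Prod.fst p.2), by
      have h1 : p.1.1.1 2 = z.1 := congrArg Prod.fst p.2
      have h2 : longAux wordM p.1.1.1 2 3 = z.2 := congrArg Prod.snd p.2
      have h3 := p.1.2.2.2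
      rw [h1, h2] at h3
      exact h3⟩)
  invFun s := ⟨⟨(s.1.1, s.2.1), ⟨s.1.2.1, s.2.2.1⟩, s.1.2.2.1.trans s.2.2.2.1.symm, by
      have h1 : s.1.1 2 = z.1 := s.1.2.2.1
      have h2 : longAux wordM s.1.1 2 3 = z.2 := s.1.2.2.2
      change longAux w s.2.1 0 3 = (longAux wordM s.1.1 2 3)⁻¹ * (s.1.1 2) ^ (-f)
      rw [h1, h2]
      exact s.2.2.2.2⟩, Prod.ext s.1.2.2.1 s.1.2.2.2⟩
  left_inv p := rfl
  right_inv s := rfl

variable [Fintype G]

theorem card_homs (w : Braid 2) (hg : Good2 G w) (f : ℤ) :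
    Nat.card (pi1 (left3 wordM ++ right3 w) 2 f →* G) =
      ∑ x : G, ∑ y : G, N wordM 2 x y * N w 0 x (y⁻¹ * x ^ (-f)) := by
  classical
  rw [Nat.card_congr (homEquiv (left3 wordM ++ right3 w) 2 f), Nat.card_congr (sumEq w hg f),
    Nat.card_congr (Equiv.sigmaFiberEquiv (phi w f)).symm, Nat.card_sigma,
    ← Finset.univ_product_univ, Finset.sum_product]
  refine Finset.sum_congr rfl fun x _ => Finset.sum_congr rfl fun y _ => ?_
  rw [Nat.card_congr (fibEq w f (x, y)), Nat.card_prod]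
  rfl

theorem permM0 : perm wordM 0 = 2 := by decide
theorem permM2 : perm wordM 2 = 1 := by decide
theorem permM1 : perm wordM 1 = 0 := by decide

theorem N2_eq (x y : G) : N wordM 2 x y = N wordM 1 x y := by
  rw [N_base wordM 2 x y (by rw [permM2, permM1, permM0]), permM2]

theorem N0_eq (x y : G) : N wordM 0 x y = N wordM 1 x y := by
  rw [N_base wordM 0 x y (by rw [permM0, permM2, permM1]), permM0, N2_eq]

theorem Nr_eq (x y : G) : N wordM.reverse 0 x y = N wordM 1 x⁻¹ y⁻¹ := by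
  rw [N_rev wordM (by rw [permM0, permM2, permM1]) (by decide), N0_eq]

/-- the contribution of the meridian `x` to the difference -/
noncomputable def Dl (f : ℤ) (x : G) : ℤ :=
  ∑ y : G, (N wordM 1 x y : ℤ) *
    ((N wordM 1 x (y⁻¹ * x ^ (-f)) : ℤ) - N wordM 1 x⁻¹ (x ^ f * y))

theorem card_sub (f : ℤ) :
    (Nat.card (pi1 (left3 wordM ++ right3 wordM) 2 f →* G) : ℤ) -
      Nat.card (pi1 (left3 wordM ++ right3 wordM.reverse) 2 f →* G) = ∑ x : G, Dl f x := by
  rw [card_homs wordM good_M f, card_homs wordM.reverse good_rM f]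
  push_cast
  rw [← Finset.sum_sub_distrib]
  refine Finset.sum_congr rfl fun x _ => ?_
  rw [← Finset.sum_sub_distrib, Dl]
  refine Finset.sum_congr rfl fun y _ => ?_
  rw [N2_eq, N0_eq, Nr_eq]
  have e : (y⁻¹ * x ^ (-f))⁻¹ = x ^ f * y := by
    rw [mul_inv_rev, inv_inv, zpow_neg, inv_inv]
  rw [e]
  ring

theorem Dl_conj (f : ℤ) (g x : G) : Dl f (g * x * g⁻¹) = Dl f x := by
  unfold Dl
  have e : ∀ k : ℤ, (g * x * g⁻¹) ^ k = g * x ^ k * g⁻¹ := fun k => conj_zpow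
  rw [← (MulAut.conj g).toEquiv.sum_comp]
  refine Finset.sum_congr rfl fun y _ => ?_
  change (N wordM 1 (g * x * g⁻¹) (g * y * g⁻¹) : ℤ) *
    ((N wordM 1 (g * x * g⁻¹) ((g * y * g⁻¹)⁻¹ * (g * x * g⁻¹) ^ (-f)) : ℤ) -
      N wordM 1 (g * x * g⁻¹)⁻¹ ((g * x * g⁻¹) ^ f * (g * y * g⁻¹))) = _
  have e1 : (g * y * g⁻¹)⁻¹ * (g * x * g⁻¹) ^ (-f) = g * (y⁻¹ * x ^ (-f)) * g⁻¹ := by
    rw [e]; group
  have e2 : (g * x * g⁻¹)⁻¹ = g * x⁻¹ * g⁻¹ := by group
  have e3 : (g * x * g⁻¹) ^ f * (g * y * g⁻¹) = g * (x ^ f * y) * g⁻¹ := by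
    rw [e]; group
  rw [e1, e2, e3, N_conj, N_conj, N_conj]

/-- The two numbers are different, if the contributions have the right signs. -/
theorem card_lt (f : ℤ) (h0 : ∀ x : G, 0 ≤ Dl f x + Dl f x⁻¹)
    (h1 : ∃ x : G, 0 < Dl f x + Dl f x⁻¹) :
    Nat.card (pi1 (left3 wordM ++ right3 wordM.reverse) 2 f →* G) <
      Nat.card (pi1 (left3 wordM ++ right3 wordM) 2 f →* G) := by
  have h2 : ∑ x : G, Dl f x⁻¹ = ∑ x : G, Dl f x :=
    Equiv.sum_comp (Equiv.inv G) (fun x => Dl f x)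
  have h3 : 0 < ∑ x : G, (Dl f x + Dl f x⁻¹) := by
    obtain ⟨x, hx⟩ := h1
    exact Finset.sum_pos' (fun i _ => h0 i) ⟨x, Finset.mem_univ x, hx⟩
  rw [Finset.sum_add_distrib, h2, ← card_sub] at h3
  omega

end card

end Pool.Agent.K3h45.LM
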