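import Mathlib

/-!
# Permutations of eleven points, coded by natural numbers, and the Mathieu group of degree 11
-/

set_option autoImplicit false
set_option linter.unusedSectionVars false

namespace Pool.Agent.K3h45.LM

/-- evaluate the argument first -/
def fo {α : Type} (x : ℕ) (f : ℕ → α) : α :=
  match x with
  | 0 => f 0
  | n + 1 => f (n + 1)

theorem fo_eq {α : Type} (x : ℕ) (f : ℕ → α) : fo x f = f x := by
  cases x <;> rfl

/-- all `i < n` -/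
def allT (n : ℕ) (f : ℕ → Bool) : Bool :=
  match n with
  | 0 => true
  | n + 1 => f n && allT n f

theorem allT_iff (n : ℕ) (f : ℕ → Bool) : allT n f = true ↔ ∀ i < n, f i = true := by
  induction n with
  | zero => simp [allT]
  | succ n ih =>
    rw [allT, Bool.and_eq_true, ih]
    constructor
    · rintro ⟨h1, h2⟩ i hi
      rcases Nat.lt_succ_iff_lt_or_eq.1 hi with h | h
      · exact h2 i h
      · rw [h]; exact h1
    · intro h
      exact ⟨h n (Nat.lt_succ_self n), fun i hi => h i (Nat.lt_succ_of_lt hi)⟩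

/-- some `i < n` -/
def anyT (n : ℕ) (f : ℕ → Bool) : Bool :=
  match n with
  | 0 => false
  | n + 1 => f n || anyT n f

theorem anyT_iff (n : ℕ) (f : ℕ → Bool) : anyT n f = true ↔ ∃ i < n, f i = true := by
  induction n with
  | zero => simp [anyT]
  | succ n ih =>
    rw [anyT, Bool.or_eq_true, ih]
    constructor
    · rintro (h | ⟨i, hi, h⟩)
      · exact ⟨n, Nat.lt_succ_self n, h⟩
      · exact ⟨i, Nat.lt_succ_of_lt hi, h⟩
    · rintro ⟨i, hi, h⟩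
      rcases Nat.lt_succ_iff_lt_or_eq.1 hi with h' | h'
      · exact Or.inr ⟨i, h', h⟩
      · rw [h'] at h; exact Or.inl h

/-- the code with the digits `d` in base 16 -/
def cdf (d : Fin 11 → ℕ) : ℕ :=
  d 0 + d 1 * 16 + d 2 * 256 + d 3 * 4096 + d 4 * 65536 + d 5 * 1048576 + d 6 * 16777216 +
    d 7 * 268435456 + d 8 * 4294967296 + d 9 * 68719476736 + d 10 * 1099511627776

theorem dg_cdf (d : Fin 11 → ℕ) (hd : ∀ i, d i < 16) (i : Fin 11) :
    (cdf d >>> (4 * i.val)) % 16 = d i := by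
  have h0 := hd 0
  have h1 := hd 1
  have h2 := hd 2
  have h3 := hd 3
  have h4 := hd 4
  have h5 := hd 5
  have h6 := hd 6
  have h7 := hd 7
  have h8 := hd 8
  have h9 := hd 9
  have h10 := hd 10
  rw [Nat.shiftRight_eq_div_pow]
  unfold cdf
  fin_cases i
  · change _ / 2 ^ (4 * 0) % 16 = d 0
    norm_num; omega
  · change _ / 2 ^ (4 * 1) % 16 = d 1
    norm_num; omega
  · change _ / 2 ^ (4 * 2) % 16 = d 2
    norm_num; omega
  · change _ / 2 ^ (4 * 3) % 16 = d 3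
    norm_num; omega
  · change _ / 2 ^ (4 * 4) % 16 = d 4
    norm_num; omega
  · change _ / 2 ^ (4 * 5) % 16 = d 5
    norm_num; omega
  · change _ / 2 ^ (4 * 6) % 16 = d 6
    norm_num; omega
  · change _ / 2 ^ (4 * 7) % 16 = d 7
    norm_num; omega
  · change _ / 2 ^ (4 * 8) % 16 = d 8
    norm_num; omega
  · change _ / 2 ^ (4 * 9) % 16 = d 9
    norm_num; omega
  · change _ / 2 ^ (4 * 10) % 16 = d 10
    norm_num; omega

/-- the code of a permutation of eleven points -/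
def cd (g : Equiv.Perm (Fin 11)) : ℕ := cdf fun i => (g i).val

theorem dg_cd (g : Equiv.Perm (Fin 11)) (i : Fin 11) : (cd g >>> (4 * i.val)) % 16 = (g i).val :=
  dg_cdf _ (fun j => lt_trans (g j).isLt (by norm_num)) i

theorem cd_inj {g h : Equiv.Perm (Fin 11)} (e : cd g = cd h) : g = h := by
  apply Equiv.ext
  intro i
  apply Fin.ext
  rw [← dg_cd g i, ← dg_cd h i, e]

/-- composition of codes -/
def pm (a b : ℕ) : ℕ :=
  Nat.add (Nat.mod (Nat.shiftRight a (Nat.mul 4 (Nat.mod b 16))) 16)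
  (Nat.add (Nat.shiftLeft (Nat.mod (Nat.shiftRight a (Nat.mul 4 (Nat.mod (Nat.shiftRight b 4) 16))) 16) 4)
  (Nat.add (Nat.shiftLeft (Nat.mod (Nat.shiftRight a (Nat.mul 4 (Nat.mod (Nat.shiftRight b 8) 16))) 16) 8)
  (Nat.add (Nat.shiftLeft (Nat.mod (Nat.shiftRight a (Nat.mul 4 (Nat.mod (Nat.shiftRight b 12) 16))) 16) 12)
  (Nat.add (Nat.shiftLeft (Nat.mod (Nat.shiftRight a (Nat.mul 4 (Nat.mod (Nat.shiftRight b 16) 16))) 16) 16)
  (Nat.add (Nat.shiftLeft (Nat.mod (Nat.shiftRight a (Nat.mul 4 (Nat.mod (Nat.shiftRight b 20) 16))) 16) 20)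
  (Nat.add (Nat.shiftLeft (Nat.mod (Nat.shiftRight a (Nat.mul 4 (Nat.mod (Nat.shiftRight b 24) 16))) 16) 24)
  (Nat.add (Nat.shiftLeft (Nat.mod (Nat.shiftRight a (Nat.mul 4 (Nat.mod (Nat.shiftRight b 28) 16))) 16) 28)
  (Nat.add (Nat.shiftLeft (Nat.mod (Nat.shiftRight a (Nat.mul 4 (Nat.mod (Nat.shiftRight b 32) 16))) 16) 32)
  (Nat.add (Nat.shiftLeft (Nat.mod (Nat.shiftRight a (Nat.mul 4 (Nat.mod (Nat.shiftRight b 36) 16))) 16) 36)
    (Nat.shiftLeft (Nat.mod (Nat.shiftRight a (Nat.mul 4 (Nat.mod (Nat.shiftRight b 40) 16))) 16) 40))))))))))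

theorem pm_def (a b : ℕ) : pm a b =
  (a >>> (4 * (b % 16))) % 16 +
  (a >>> (4 * ((b >>> 4) % 16))) % 16 * 16 +
  (a >>> (4 * ((b >>> 8) % 16))) % 16 * 256 +
  (a >>> (4 * ((b >>> 12) % 16))) % 16 * 4096 +
  (a >>> (4 * ((b >>> 16) % 16))) % 16 * 65536 +
  (a >>> (4 * ((b >>> 20) % 16))) % 16 * 1048576 +
  (a >>> (4 * ((b >>> 24) % 16))) % 16 * 16777216 +
  (a >>> (4 * ((b >>> 28) % 16))) % 16 * 268435456 +
  (a >>> (4 * ((b >>> 32) % 16))) % 16 * 4294967296 +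
  (a >>> (4 * ((b >>> 36) % 16))) % 16 * 68719476736 +
  (a >>> (4 * ((b >>> 40) % 16))) % 16 * 1099511627776 := by
  change (a >>> (4 * (b % 16))) % 16 +
    ((((a >>> (4 * ((b >>> 4) % 16))) % 16) <<< 4) +
    ((((a >>> (4 * ((b >>> 8) % 16))) % 16) <<< 8) +
    ((((a >>> (4 * ((b >>> 12) % 16))) % 16) <<< 12) +
    ((((a >>> (4 * ((b >>> 16) % 16))) % 16) <<< 16) +
    ((((a >>> (4 * ((b >>> 20) % 16))) % 16) <<< 20) +
    ((((a >>> (4 * ((b >>> 24) % 16))) % 16) <<< 24) +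
    ((((a >>> (4 * ((b >>> 28) % 16))) % 16) <<< 28) +
    ((((a >>> (4 * ((b >>> 32) % 16))) % 16) <<< 32) +
    ((((a >>> (4 * ((b >>> 36) % 16))) % 16) <<< 36) +
    ((((a >>> (4 * ((b >>> 40) % 16))) % 16) <<< 40))))))))))) = _
  simp only [Nat.shiftLeft_eq]
  norm_num
  ring

theorem cd_mul (g h : Equiv.Perm (Fin 11)) : cd (g * h) = pm (cd g) (cd h) := by
  have e : ∀ i : Fin 11, (cd g >>> (4 * ((cd h >>> (4 * i.val)) % 16))) % 16 = (g (h i)).val := by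
    intro i
    rw [dg_cd h i, dg_cd g (h i)]
  have e0 := e 0
  have e1 := e 1
  have e2 := e 2
  have e3 := e 3
  have e4 := e 4
  have e5 := e 5
  have e6 := e 6
  have e7 := e 7
  have e8 := e 8
  have e9 := e 9
  have e10 := e 10
  have v0 : ((0 : Fin 11).val) = 0 := rfl
  have v1 : ((1 : Fin 11).val) = 1 := rfl
  have v2 : ((2 : Fin 11).val) = 2 := rfl
  have v3 : ((3 : Fin 11).val) = 3 := rfl
  have v4 : ((4 : Fin 11).val) = 4 := rfl
  have v5 : ((5 : Fin 11).val) = 5 := rfl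
  have v6 : ((6 : Fin 11).val) = 6 := rfl
  have v7 : ((7 : Fin 11).val) = 7 := rfl
  have v8 : ((8 : Fin 11).val) = 8 := rfl
  have v9 : ((9 : Fin 11).val) = 9 := rfl
  have v10 : ((10 : Fin 11).val) = 10 := rfl
  rw [v0, mul_zero, Nat.shiftRight_zero] at e0
  rw [v1] at e1
  rw [v2] at e2
  rw [v3] at e3
  rw [v4] at e4
  rw [v5] at e5
  rw [v6] at e6
  rw [v7] at e7
  rw [v8] at e8
  rw [v9] at e9
  rw [v10] at e10
  norm_num at e1 e2 e3 e4 e5 e6 e7 e8 e9 e10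
  rw [pm_def, e0, e1, e2, e3, e4, e5, e6, e7, e8, e9, e10]
  rfl

/-- inversion of codes -/
def pinv (a : ℕ) : ℕ :=
  Nat.add (Nat.shiftLeft 1 (Nat.mul 4 (Nat.mod (Nat.shiftRight a 4) 16)))
  (Nat.add (Nat.shiftLeft 2 (Nat.mul 4 (Nat.mod (Nat.shiftRight a 8) 16)))
  (Nat.add (Nat.shiftLeft 3 (Nat.mul 4 (Nat.mod (Nat.shiftRight a 12) 16)))
  (Nat.add (Nat.shiftLeft 4 (Nat.mul 4 (Nat.mod (Nat.shiftRight a 16) 16)))
  (Nat.add (Nat.shiftLeft 5 (Nat.mul 4 (Nat.mod (Nat.shiftRight a 20) 16)))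
  (Nat.add (Nat.shiftLeft 6 (Nat.mul 4 (Nat.mod (Nat.shiftRight a 24) 16)))
  (Nat.add (Nat.shiftLeft 7 (Nat.mul 4 (Nat.mod (Nat.shiftRight a 28) 16)))
  (Nat.add (Nat.shiftLeft 8 (Nat.mul 4 (Nat.mod (Nat.shiftRight a 32) 16)))
  (Nat.add (Nat.shiftLeft 9 (Nat.mul 4 (Nat.mod (Nat.shiftRight a 36) 16)))
    (Nat.shiftLeft 10 (Nat.mul 4 (Nat.mod (Nat.shiftRight a 40) 16)))))))))))

theorem sh16 (k d : ℕ) : k <<< (4 * d) = k * 16 ^ d := by
  rw [Nat.shiftLeft_eq, pow_mul]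
  norm_num

theorem pinv_def (a : ℕ) : pinv a =
  1 * 16 ^ ((a >>> 4) % 16) +
  2 * 16 ^ ((a >>> 8) % 16) +
  3 * 16 ^ ((a >>> 12) % 16) +
  4 * 16 ^ ((a >>> 16) % 16) +
  5 * 16 ^ ((a >>> 20) % 16) +
  6 * 16 ^ ((a >>> 24) % 16) +
  7 * 16 ^ ((a >>> 28) % 16) +
  8 * 16 ^ ((a >>> 32) % 16) +
  9 * 16 ^ ((a >>> 36) % 16) +
  10 * 16 ^ ((a >>> 40) % 16) := by
  change (1 <<< (4 * ((a >>> 4) % 16))) +
    ((2 <<< (4 * ((a >>> 8) % 16))) +
    ((3 <<< (4 * ((a >>> 12) % 16))) +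
    ((4 <<< (4 * ((a >>> 16) % 16))) +
    ((5 <<< (4 * ((a >>> 20) % 16))) +
    ((6 <<< (4 * ((a >>> 24) % 16))) +
    ((7 <<< (4 * ((a >>> 28) % 16))) +
    ((8 <<< (4 * ((a >>> 32) % 16))) +
    ((9 <<< (4 * ((a >>> 36) % 16))) +
    ((10 <<< (4 * ((a >>> 40) % 16)))))))))))) = _
  simp only [sh16]
  ring

theorem sum11 (f : Fin 11 → ℕ) : ∑ i : Fin 11, f i =
    f 0 + f 1 + f 2 + f 3 + f 4 + f 5 + f 6 + f 7 + f 8 + f 9 + f 10 := by
  rw [Fin.sum_univ_castSucc, Fin.sum_univ_castSucc, Fin.sum_univ_castSucc, Fin.sum_univ_eight]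
  rfl

theorem cdf_sum (d : Fin 11 → ℕ) : cdf d = ∑ i : Fin 11, d i * 16 ^ i.val := by
  rw [sum11, cdf]
  have v0 : ((0 : Fin 11).val) = 0 := rfl
  have v1 : ((1 : Fin 11).val) = 1 := rfl
  have v2 : ((2 : Fin 11).val) = 2 := rfl
  have v3 : ((3 : Fin 11).val) = 3 := rfl
  have v4 : ((4 : Fin 11).val) = 4 := rfl
  have v5 : ((5 : Fin 11).val) = 5 := rfl
  have v6 : ((6 : Fin 11).val) = 6 := rfl
  have v7 : ((7 : Fin 11).val) = 7 := rfl
  have v8 : ((8 : Fin 11).val) = 8 := rfl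
  have v9 : ((9 : Fin 11).val) = 9 := rfl
  have v10 : ((10 : Fin 11).val) = 10 := rfl
  rw [v0, v1, v2, v3, v4, v5, v6, v7, v8, v9, v10]
  norm_num

theorem cd_inv (g : Equiv.Perm (Fin 11)) : cd g⁻¹ = pinv (cd g) := by
  have e : ∀ i : Fin 11, (cd g >>> (4 * i.val)) % 16 = (g i).val := dg_cd g
  have e1 := e 1
  have e2 := e 2
  have e3 := e 3
  have e4 := e 4
  have e5 := e 5
  have e6 := e 6
  have e7 := e 7
  have e8 := e 8
  have e9 := e 9
  have e10 := e 10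
  have v1 : ((1 : Fin 11).val) = 1 := rfl
  have v2 : ((2 : Fin 11).val) = 2 := rfl
  have v3 : ((3 : Fin 11).val) = 3 := rfl
  have v4 : ((4 : Fin 11).val) = 4 := rfl
  have v5 : ((5 : Fin 11).val) = 5 := rfl
  have v6 : ((6 : Fin 11).val) = 6 := rfl
  have v7 : ((7 : Fin 11).val) = 7 := rfl
  have v8 : ((8 : Fin 11).val) = 8 := rfl
  have v9 : ((9 : Fin 11).val) = 9 := rfl
  have v10 : ((10 : Fin 11).val) = 10 := rfl
  rw [v1] at e1
  rw [v2] at e2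
  rw [v3] at e3
  rw [v4] at e4
  rw [v5] at e5
  rw [v6] at e6
  rw [v7] at e7
  rw [v8] at e8
  rw [v9] at e9
  rw [v10] at e10
  norm_num at e1 e2 e3 e4 e5 e6 e7 e8 e9 e10
  rw [pinv_def, e1, e2, e3, e4, e5, e6, e7, e8, e9, e10, cd, cdf_sum, ← Equiv.sum_comp g]
  have h : ∀ i : Fin 11, g⁻¹ (g i) = i := fun i => g.symm_apply_apply i
  simp only [h]
  rw [sum11]
  have v0 : ((0 : Fin 11).val) = 0 := rfl
  rw [v0, v1, v2, v3, v4, v5, v6, v7, v8, v9, v10]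
  ring

/-- the first generator, `i ↦ i + 1` -/
def ga : Equiv.Perm (Fin 11) := Equiv.addRight 1

/-- the second generator, `(2 6 10 7) (3 9 4 5)` -/
def gb : Equiv.Perm (Fin 11) where
  toFun := ![0, 1, 6, 9, 5, 3, 10, 2, 8, 4, 7]
  invFun := ![0, 1, 7, 5, 9, 4, 2, 10, 8, 3, 6]
  left_inv := by decide
  right_inv := by decide

/-- The Mathieu group of degree 11, as the group generated by two permutations of eleven points. -/
def M11 : Subgroup (Equiv.Perm (Fin 11)) := Subgroup.closure {ga, gb}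

end Pool.Agent.K3h45.LM
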