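import Pool.Agent.K3h45.LM.M2

/-!
# The checks on the tables: definitions
-/

set_option autoImplicit false
set_option linter.unusedSectionVars false

namespace Pool.Agent.K3h45.LM

/-- the table is closed under left multiplication by the generators -/
def k1 (i : ℕ) : Bool :=
  fo (Tg i) fun x => inT x && fo (pm ca x) fun y => inT y && fo (pm cb x) fun y => inT y

/-- every element of the table is a product of generators -/
def k2 (i : ℕ) : Bool :=
  fo (Tg i) fun x => match dep i with
    | 0 => Nat.beq x cid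
    | d + 1 => match gen i with
      | 0 => fo (pm cai x) fun y => inT y && Nat.blt (dep (rank y)) (d + 1) && Nat.beq (pm ca y) x
      | _ + 1 => fo (pm cbi x) fun y =>
          inT y && Nat.blt (dep (rank y)) (d + 1) && Nat.beq (pm cb y) x

/-- the conjugacy classes -/
def k3 (i : ℕ) : Bool :=
  fo (Tg i) fun x => fo (hw i) fun j => fo (Tg j) fun h => fo (nth 0 reps (cls i)) fun r =>
    Nat.blt j 7920 && Nat.beq (pm x h) (pm h r) && Nat.blt (cls i) 10

/-- conjugate elements have the same class -/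
def k4 (i : ℕ) : Bool :=
  fo (Tg i) fun x =>
    (fo (pm (pm ca x) cai) fun y => Nat.beq (cls (rank y)) (cls i)) &&
    (fo (pm (pm cb x) cbi) fun y => Nat.beq (cls (rank y)) (cls i))

/-- the list of the elements that conjugate the representative to a given element is complete -/
def k5 (i : ℕ) : Bool :=
  fo (Tg i) fun x => fo (nth 0 reps (cls i)) fun r => fo (pm (pm x r) (pinv x)) fun y =>
    fo (rank y) fun j => fo (Sx j) fun s => anyT (cnt j) fun k => Nat.beq (Fx (s + k)) i

/-- the check for the representative and the third meridian -/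
def k6 (i : ℕ) : Bool :=
  fo (cls i) fun c => fo (nth 0 reps c) fun b => fo (pinv b) fun bi => fo (Tg i) fun q =>
  fo (pinv q) fun qi => fo (pm (pm bi q) b) fun q1 => fo (pinv q1) fun q1i =>
  fo (pm (pm q b) qi) fun v => fo (rank (pm (pm q1 q) q1i)) fun j => fo (Sx j) fun s0 =>
  allT (cnt j) fun k => fo (Fx (s0 + k)) fun ks => fo (Tg ks) fun s => fo (Tg (hw ks)) fun h =>
  fo (pinv h) fun hi => fo (pm (pm b s) bi) fun r => fo (rank (pm (pm hi q1) h)) fun l =>
  fo (Sx l) fun s1 => allT (cnt l) fun k' => fo (Tg (Fx (s1 + k'))) fun a1 =>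
  fo (pm (pm h a1) hi) fun a => fo (pm a v) fun av => fo (pm v a) fun va =>
    !(Nat.beq (pm av a) (pm va r)) ||
      (nth [] sols c).any fun t => Nat.beq t.1 a && Nat.beq t.2.1 q

/-- one crossing, on codes -/
def stepC {α : Type} (g : Fin 2 × Bool) (l0 l1 l2 a0 a1 a2 : ℕ)
    (k : ℕ → ℕ → ℕ → ℕ → ℕ → ℕ → α) : α :=
  match g.1.val, g.2 with
  | 0, true => fo (pm (pm (pinv l0) l1) l0) fun x => fo (pm a1 l0) fun y => k x l0 l2 y a0 a2
  | 0, false => fo (pm (pm l1 l0) (pinv l1)) fun x => fo (pm a0 (pinv l1)) fun y =>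
      k l1 x l2 a1 y a2
  | _ + 1, true => fo (pm (pm (pinv l1) l2) l1) fun x => fo (pm a2 l1) fun y =>
      k l0 x l1 a0 y a1
  | _ + 1, false => fo (pm (pm l2 l1) (pinv l2)) fun x => fo (pm a1 (pinv l2)) fun y =>
      k l0 l2 x a0 a2 y

/-- a braid word, on codes -/
def runC {α : Type} (w : List (Fin 2 × Bool)) (l0 l1 l2 a0 a1 a2 : ℕ)
    (k : ℕ → ℕ → ℕ → ℕ → ℕ → ℕ → α) : α :=
  match w with
  | [] => k l0 l1 l2 a0 a1 a2
  | g :: w => stepC g l0 l1 l2 a0 a1 a2 fun l0 l1 l2 a0 a1 a2 => runC w l0 l1 l2 a0 a1 a2 k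

/-- the braid word -/
def wM : List (Fin 2 × Bool) :=
  [(0, false), (1, true), (0, false), (1, true), (0, false), (0, false), (1, true), (1, true)]

/-- the check for a solution -/
def k7 (b : ℕ) (t : ℕ × ℕ × ℕ) : Bool :=
  inT t.1 && inT t.2.1 && runC wM t.1 b t.2.1 cid cid cid fun l0 l1 l2 a0 a1 a2 =>
    Nat.beq l0 t.1 && Nat.beq l1 b && Nat.beq l2 t.2.1 && Nat.beq (pm a2 (pm a0 a1)) t.2.2

/-- strictly increasing -/
def inc : List ℕ → Bool
  | [] => true
  | [_] => true
  | a :: b :: l => Nat.blt a b && inc (b :: l)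

/-- the check for the solutions -/
def k8 (c : ℕ) : Bool :=
  (nth [] sols c).all (k7 (nth 0 reps c)) &&
    inc ((nth [] sols c).map fun t => t.1 * 17592186044416 + t.2.1)

/-- the check for the representatives -/
def k9 (c : ℕ) : Bool :=
  inT (nth 0 reps c) && Nat.beq (cls (rank (nth 0 reps c))) c && inT (nth 0 icw c) &&
    Nat.blt (nth 0 icl c) 10 && Nat.beq (pm (pinv (nth 0 reps c)) (nth 0 icw c))
      (pm (nth 0 icw c) (nth 0 reps (nth 0 icl c)))

/-- the number of solutions with a given longitude -/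
def nu (c y : ℕ) : ℕ := (nth [] sols c).countP fun t => Nat.beq t.2.2 y

/-- a summand of the contribution of the representative of the class `c` for the framing `1`
(`s = true`) or `-1` -/
def phiC (s : Bool) (c : ℕ) (y : ℕ) : ℤ :=
  fo (nth 0 reps c) fun b => fo (pinv b) fun bi => fo (nth 0 icw c) fun t => fo (pinv t) fun ti =>
    (nu c (pm (pinv y) (if s then bi else b)) : ℤ) -
      nu (nth 0 icl c) (pm (pm ti (pm (if s then b else bi) y)) t)

/-- the contribution of the representative of the class `c` -/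
def dlC (s : Bool) (c : ℕ) : ℤ := ((nth [] sols c).map fun t => phiC s c t.2.2).sum

/-- `f i` for all `i` with `a ≤ i < a + n` -/
def chunk (f : ℕ → Bool) (a n : ℕ) : Bool := allT n fun i => f (a + i)

end Pool.Agent.K3h45.LM
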