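import Pool.Agent.K3h45.LM.C7
import Pool.Agent.K3h45.LM.C8

/-!
# The Mathieu group of degree 11: elements, conjugacy classes
-/

set_option autoImplicit false
set_option linter.unusedSectionVars false

namespace Pool.Agent.K3h45.LM

theorem blt_iff (a b : ℕ) : Nat.blt a b = true ↔ a < b := by
  rw [Nat.blt_eq]

theorem beq_iff (a b : ℕ) : Nat.beq a b = true ↔ a = b := by
  rw [Nat.beq_eq]

theorem inT_iff (c : ℕ) : inT c = true ↔ rank c < 7920 ∧ Tg (rank c) = c := by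
  unfold inT
  rw [fo_eq, Bool.and_eq_true, blt_iff, beq_iff]

theorem cd_one : cd 1 = cid := by decide
theorem cd_ga : cd ga = ca := by decide
theorem cd_gb : cd gb = cb := by decide
theorem cd_gai : cd ga⁻¹ = cai := by rw [cd_inv, cd_ga]; decide
theorem cd_gbi : cd gb⁻¹ = cbi := by rw [cd_inv, cd_gb]; decide

theorem inT_cid : inT cid = true := by decide +kernel

theorem ga_mem : ga ∈ M11 := Subgroup.subset_closure (Or.inl rfl)
theorem gb_mem : gb ∈ M11 := Subgroup.subset_closure (Or.inr rfl)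

theorem k1_spec (i : ℕ) (hi : i < 7920) :
    inT (Tg i) = true ∧ inT (pm ca (Tg i)) = true ∧ inT (pm cb (Tg i)) = true := by
  have h := all1 i hi
  unfold k1 at h
  simp only [fo_eq, Bool.and_eq_true] at h
  exact ⟨h.1, h.2.1, h.2.2⟩

theorem inT_step (x : ℕ) (hx : inT x = true) : inT (pm ca x) = true ∧ inT (pm cb x) = true := by
  obtain ⟨h1, h2⟩ := (inT_iff x).1 hx
  have h := k1_spec _ h1
  rw [h2] at h
  exact h.2

/-- every element of the group is in the table -/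
theorem inT_mem (g : Equiv.Perm (Fin 11)) (hg : g ∈ M11) : inT (cd g) = true := by
  have h : M11.toSubmonoid = Submonoid.closure {ga, gb} :=
    Subgroup.closure_toSubmonoid_of_finite
  have hg' : g ∈ Submonoid.closure {ga, gb} := by
    rw [← h]
    exact hg
  induction hg' using Submonoid.closure_induction_left with
  | one =>
    rw [cd_one]
    exact inT_cid
  | mul_left x hx y hy ih =>
    have hyM : y ∈ M11 := by
      have : y ∈ M11.toSubmonoid := by rw [h]; exact hy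
      exact this
    have := inT_step _ (ih hyM)
    rcases hx with rfl | hx
    · rw [cd_mul, cd_ga]; exact this.1
    · rw [Set.mem_singleton_iff] at hx
      subst hx
      rw [cd_mul, cd_gb]; exact this.2

/-- every element of the table is in the group -/
theorem mem_of_lt (i : ℕ) (hi : i < 7920) : ∃ g ∈ M11, cd g = Tg i := by
  have key : ∀ d i, i < 7920 → dep i = d → ∃ g ∈ M11, cd g = Tg i := by
    intro d
    induction d using Nat.strong_induction_on with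
    | _ d ih =>
      intro i hi hd
      have h := all2 i hi
      unfold k2 at h
      rw [fo_eq] at h
      cases d with
      | zero =>
        rw [hd] at h
        exact ⟨1, M11.one_mem, by rw [cd_one]; exact ((beq_iff _ _).1 h).symm⟩
      | succ d =>
        rw [hd] at h
        dsimp only at h
        generalize gen i = e at h
        cases e with
        | zero =>
          dsimp only at h
          rw [fo_eq, Bool.and_eq_true, Bool.and_eq_true, blt_iff, beq_iff] at h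
          obtain ⟨⟨h1, h2⟩, h3⟩ := h
          obtain ⟨h4, h5⟩ := (inT_iff _).1 h1
          obtain ⟨g, hg, hc⟩ := ih _ h2 _ h4 rfl
          refine ⟨ga * g, M11.mul_mem ga_mem hg, ?_⟩
          rw [cd_mul, cd_ga, hc, h5, h3]
        | succ e =>
          dsimp only at h
          rw [fo_eq, Bool.and_eq_true, Bool.and_eq_true, blt_iff, beq_iff] at h
          obtain ⟨⟨h1, h2⟩, h3⟩ := h
          obtain ⟨h4, h5⟩ := (inT_iff _).1 h1
          obtain ⟨g, hg, hc⟩ := ih _ h2 _ h4 rfl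
          refine ⟨gb * g, M11.mul_mem gb_mem hg, ?_⟩
          rw [cd_mul, cd_gb, hc, h5, h3]
  exact key _ i hi rfl

/-- the code of an element -/
def cM (g : M11) : ℕ := cd g.1

theorem cM_mul (g h : M11) : cM (g * h) = pm (cM g) (cM h) := cd_mul _ _
theorem cM_inv (g : M11) : cM g⁻¹ = pinv (cM g) := cd_inv _
theorem cM_one : cM 1 = cid := cd_one
theorem cM_inj {g h : M11} (e : cM g = cM h) : g = h := Subtype.ext (cd_inj e)

theorem rank_lt (g : M11) : rank (cM g) < 7920 := ((inT_iff _).1 (inT_mem g.1 g.2)).1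
theorem Tg_rank (g : M11) : Tg (rank (cM g)) = cM g := ((inT_iff _).1 (inT_mem g.1 g.2)).2

theorem exists_of_inT (c : ℕ) (h : inT c = true) : ∃ g : M11, cM g = c := by
  obtain ⟨h1, h2⟩ := (inT_iff c).1 h
  obtain ⟨g, hg, hc⟩ := mem_of_lt _ h1
  exact ⟨⟨g, hg⟩, hc.trans h2⟩

theorem exists_of_lt (i : ℕ) (h : i < 7920) : ∃ g : M11, cM g = Tg i := by
  obtain ⟨g, hg, hc⟩ := mem_of_lt _ h
  exact ⟨⟨g, hg⟩, hc⟩

/-- the index of the conjugacy class -/
def cl (g : M11) : ℕ := cls (rank (cM g))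

theorem k9_spec (c : ℕ) (hc : c < 10) :
    inT (nth 0 reps c) = true ∧ cls (rank (nth 0 reps c)) = c ∧ inT (nth 0 icw c) = true ∧
    nth 0 icl c < 10 ∧ pm (pinv (nth 0 reps c)) (nth 0 icw c) =
      pm (nth 0 icw c) (nth 0 reps (nth 0 icl c)) := by
  have h := (allT_iff _ _).1 d9 c hc
  unfold k9 at h
  rw [Bool.and_eq_true, Bool.and_eq_true, Bool.and_eq_true, Bool.and_eq_true, beq_iff, beq_iff,
    blt_iff] at h
  exact ⟨h.1.1.1.1, h.1.1.1.2, h.1.1.2, h.1.2, h.2⟩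

/-- the representatives of the classes -/
noncomputable def rho (c : ℕ) : M11 :=
  if h : c < 10 then (exists_of_inT _ (k9_spec c h).1).choose else 1

theorem cM_rho (c : ℕ) (h : c < 10) : cM (rho c) = nth 0 reps c := by
  rw [rho, dif_pos h]
  exact (exists_of_inT _ (k9_spec c h).1).choose_spec

theorem cl_rho (c : ℕ) (h : c < 10) : cl (rho c) = c := by
  rw [cl, cM_rho c h]
  exact (k9_spec c h).2.1

theorem k3_spec (g : M11) : cl g < 10 ∧ ∃ h : M11, cM h = Tg (hw (rank (cM g))) ∧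
    g = h * rho (cl g) * h⁻¹ := by
  have h := all3 _ (rank_lt g)
  unfold k3 at h
  simp only [fo_eq] at h
  rw [Bool.and_eq_true, Bool.and_eq_true, blt_iff, beq_iff, blt_iff, Tg_rank] at h
  obtain ⟨⟨h1, h2⟩, h3⟩ := h
  obtain ⟨k, hk⟩ := exists_of_lt _ h1
  refine ⟨h3, k, hk, ?_⟩
  have h4 : g * k = k * rho (cl g) := by
    apply cM_inj
    have h5 : cM (rho (cl g)) = nth 0 reps (cls (rank (cM g))) := cM_rho _ h3
    rw [cM_mul, cM_mul, h5, hk]
    exact h2
  rw [← h4]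
  group

theorem cl_conj_gen (g : M11) : cl (⟨ga, ga_mem⟩ * g * ⟨ga, ga_mem⟩⁻¹) = cl g ∧
    cl (⟨gb, gb_mem⟩ * g * ⟨gb, gb_mem⟩⁻¹) = cl g := by
  have h := all4 _ (rank_lt g)
  unfold k4 at h
  simp only [fo_eq] at h
  rw [Bool.and_eq_true, beq_iff, beq_iff, Tg_rank] at h
  have e1 : cM (⟨ga, ga_mem⟩ * g * ⟨ga, ga_mem⟩⁻¹) = pm (pm ca (cM g)) cai := by
    rw [cM_mul, cM_mul]
    have : cM (⟨ga, ga_mem⟩⁻¹ : M11) = cai := cd_gai
    rw [this]
    have : cM (⟨ga, ga_mem⟩ : M11) = ca := cd_ga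
    rw [this]
  have e2 : cM (⟨gb, gb_mem⟩ * g * ⟨gb, gb_mem⟩⁻¹) = pm (pm cb (cM g)) cbi := by
    rw [cM_mul, cM_mul]
    have : cM (⟨gb, gb_mem⟩⁻¹ : M11) = cbi := cd_gbi
    rw [this]
    have : cM (⟨gb, gb_mem⟩ : M11) = cb := cd_gb
    rw [this]
  unfold cl
  rw [e1, e2]
  exact h

theorem cl_conj (h g : M11) : cl (h * g * h⁻¹) = cl g := by
  obtain ⟨h, hh⟩ := h
  have e : M11.toSubmonoid = Submonoid.closure {ga, gb} :=
    Subgroup.closure_toSubmonoid_of_finite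
  have hg' : h ∈ Submonoid.closure {ga, gb} := by
    rw [← e]
    exact hh
  induction hg' using Submonoid.closure_induction_left generalizing g with
  | one =>
    have : (⟨1, hh⟩ : M11) = 1 := rfl
    rw [this]
    simp
  | mul_left x hx y hy ih =>
    have hyM : y ∈ M11 := by
      have : y ∈ M11.toSubmonoid := by rw [e]; exact hy
      exact this
    rcases hx with hx | hx
    · subst hx
      have e1 : (⟨ga * y, hh⟩ : M11) = ⟨ga, ga_mem⟩ * ⟨y, hyM⟩ := rfl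
      rw [e1]
      have e2 : (⟨ga, ga_mem⟩ * ⟨y, hyM⟩ : M11) * g * (⟨ga, ga_mem⟩ * ⟨y, hyM⟩)⁻¹ =
        ⟨ga, ga_mem⟩ * (⟨y, hyM⟩ * g * ⟨y, hyM⟩⁻¹) * ⟨ga, ga_mem⟩⁻¹ := by group
      rw [e2, (cl_conj_gen _).1, ih]
    · rw [Set.mem_singleton_iff] at hx
      subst hx
      have e1 : (⟨gb * y, hh⟩ : M11) = ⟨gb, gb_mem⟩ * ⟨y, hyM⟩ := rfl
      rw [e1]
      have e2 : (⟨gb, gb_mem⟩ * ⟨y, hyM⟩ : M11) * g * (⟨gb, gb_mem⟩ * ⟨y, hyM⟩)⁻¹ =
        ⟨gb, gb_mem⟩ * (⟨y, hyM⟩ * g * ⟨y, hyM⟩⁻¹) * ⟨gb, gb_mem⟩⁻¹ := by group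
      rw [e2, (cl_conj_gen _).2, ih]

theorem cl_conj' (h g : M11) : cl (h⁻¹ * g * h) = cl g := by
  have := cl_conj h⁻¹ g
  rwa [inv_inv] at this

/-- the elements that conjugate the representative to a given element are in a short list -/
theorem k5_spec (x : M11) : ∃ k < cnt (rank (cM (x * rho (cl x) * x⁻¹))),
    Fx (Sx (rank (cM (x * rho (cl x) * x⁻¹))) + k) = rank (cM x) := by
  have h := all5 _ (rank_lt x)
  unfold k5 at h
  simp only [fo_eq] at h
  rw [anyT_iff, Tg_rank] at h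
  obtain ⟨k, hk, h2⟩ := h
  rw [beq_iff] at h2
  have e : cM (x * rho (cl x) * x⁻¹) =
      pm (pm (cM x) (nth 0 reps (cls (rank (cM x))))) (pinv (cM x)) := by
    rw [cM_mul, cM_mul, cM_inv, cM_rho _ (k3_spec x).1]
    rfl
  rw [e]
  exact ⟨k, hk, h2⟩

/-- The solutions of the two equations. -/
theorem k6_spec (a q : M11) (c : ℕ) (hc : c < 10) (ha : cl a = c) (hq : cl q = c)
    (h1 : (a⁻¹ * ((rho c)⁻¹ * q * rho c) * a) * rho c * (a⁻¹ * ((rho c)⁻¹ * q * rho c) * a)⁻¹ =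
      ((rho c)⁻¹ * q * rho c) * q * ((rho c)⁻¹ * q * rho c)⁻¹)
    (h2 : a * (q * rho c * q⁻¹) * a = (q * rho c * q⁻¹) * a *
      (rho c * (a⁻¹ * ((rho c)⁻¹ * q * rho c) * a) * (rho c)⁻¹)) :
    ∃ t ∈ nth [] sols c, t.1 = cM a ∧ t.2.1 = cM q := by
  set b := rho c with hb
  set q1 := b⁻¹ * q * b with hq1
  set s := a⁻¹ * q1 * a with hs
  have hcq1 : cl q1 = c := by rw [hq1, cl_conj', hq]
  have hcs : cl s = c := by rw [hs, cl_conj', hcq1]
  obtain ⟨k, hk, hFk⟩ := k5_spec s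
  rw [hcs, ← hb, h1] at hk hFk
  obtain ⟨_, h, hh, hsh⟩ := k3_spec s
  rw [hcs, ← hb] at hsh
  have hca : cl (h⁻¹ * a * h) = c := by rw [cl_conj', ha]
  obtain ⟨k', hk', hFk'⟩ := k5_spec (h⁻¹ * a * h)
  have e1 : (h⁻¹ * a * h) * b * (h⁻¹ * a * h)⁻¹ = h⁻¹ * q1 * h := by
    have e2 : (h⁻¹ * a * h) * b * (h⁻¹ * a * h)⁻¹ = h⁻¹ * a * (h * b * h⁻¹) * a⁻¹ * h := by group
    rw [e2, ← hsh, hs]
    group
  rw [hca, ← hb, e1] at hk' hFk'
  have hm := all6 _ (rank_lt q)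
  unfold k6 at hm
  simp only [fo_eq] at hm
  have hcl : cls (rank (cM q)) = c := hq
  rw [hcl, Tg_rank, ← cM_rho c hc, ← hb] at hm
  have e3 : pm (pm (pm (pm (pinv (cM b)) (cM q)) (cM b)) (cM q))
      (pinv (pm (pm (pinv (cM b)) (cM q)) (cM b))) = cM (q1 * q * q1⁻¹) := by
    rw [hq1]
    simp only [cM_mul, cM_inv]
  rw [e3, allT_iff] at hm
  have hm2 := hm k hk
  rw [hFk, Tg_rank, ← hh, allT_iff] at hm2
  have e4 : pm (pm (pinv (cM h)) (pm (pm (pinv (cM b)) (cM q)) (cM b))) (cM h) =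
      cM (h⁻¹ * q1 * h) := by
    rw [hq1]
    simp only [cM_mul, cM_inv]
  rw [e4] at hm2
  have hm3 := hm2 k' hk'
  rw [hFk', Tg_rank] at hm3
  have e5 : pm (pm (cM h) (cM (h⁻¹ * a * h))) (pinv (cM h)) = cM a := by
    have : a = h * (h⁻¹ * a * h) * h⁻¹ := by group
    conv_rhs => rw [this]
    rw [cM_mul (h * (h⁻¹ * a * h)) h⁻¹, cM_mul h (h⁻¹ * a * h), cM_inv]
  rw [e5] at hm3
  have e6 : pm (pm (cM a) (pm (pm (cM q) (cM b)) (pinv (cM q)))) (cM a) =
      cM (a * (q * b * q⁻¹) * a) := by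
    simp only [cM_mul, cM_inv]
  have e7 : pm (pm (pm (pm (cM q) (cM b)) (pinv (cM q))) (cM a))
      (pm (pm (cM b) (cM s)) (pinv (cM b))) = cM ((q * b * q⁻¹) * a * (b * s * b⁻¹)) := by
    simp only [cM_mul, cM_inv]
  rw [e6, e7, h2] at hm3
  have e8 : ∀ n : ℕ, Nat.beq n n = true := fun n => (beq_iff n n).2 rfl
  rw [e8, Bool.not_true, Bool.false_or, List.any_eq_true] at hm3
  obtain ⟨t, ht, ht2⟩ := hm3
  rw [Bool.and_eq_true, beq_iff, beq_iff] at ht2
  exact ⟨t, ht, ht2⟩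

end Pool.Agent.K3h45.LM
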