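import Pool.Agent.K3h45.LM.G3
import Pool.Agent.K3h45.LM.M5

/-!
# The representations of the group of the knot `8_17` in the Mathieu group
-/

set_option autoImplicit false
set_option linter.unusedSectionVars false

namespace Pool.Agent.K3h45.LM

open Pool.Agent.W616

section eqs

variable {G : Type} [Group G]

theorem lab0f (v : Fin 3 → G) :
    labs [((0 : Fin 2), false)] v = ![v 1, v 1 * v 0 * (v 1)⁻¹, v 2] := by
  funext p; fin_cases p <;> rfl

theorem lab1t (v : Fin 3 → G) :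
    labs [((1 : Fin 2), true)] v = ![v 0, (v 1)⁻¹ * v 2 * v 1, v 1] := by
  funext p; fin_cases p <;> rfl

theorem closed_eqs (a b q : G) (h : Closed wordM ![a, b, q]) :
    (a⁻¹ * (b⁻¹ * q * b) * a) * b * (a⁻¹ * (b⁻¹ * q * b) * a)⁻¹ =
      (b⁻¹ * q * b) * q * (b⁻¹ * q * b)⁻¹ ∧
    a * (q * b * q⁻¹) * a = (q * b * q⁻¹) * a * (b * (a⁻¹ * (b⁻¹ * q * b) * a) * b⁻¹) := by
  have e : wordM = [((0 : Fin 2), false)] ++ ([((1 : Fin 2), true)] ++ ([((0 : Fin 2), false)] ++
    ([((1 : Fin 2), true)] ++ ([((0 : Fin 2), false)] ++ ([((0 : Fin 2), false)] ++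
    ([((1 : Fin 2), true)] ++ [((1 : Fin 2), true)])))))) := rfl
  have h0 := h 0
  have h1 := h 1
  have h2 := h 2
  rw [e] at h0 h1 h2
  simp only [labs_append, lab0f, lab1t] at h0 h1 h2
  simp only [Matrix.cons_val] at h0 h1 h2
  set p := b * a * b⁻¹ with hp
  set r := p⁻¹ * q * p with hr
  set u := r * b * r⁻¹ with hu
  set x := u⁻¹ * p * u with hx
  set t := x * r * x⁻¹ with ht
  set v := t * x * t⁻¹ with hv
  have hvq : v = q * b * q⁻¹ := by
    rw [h2] at h1
    rw [← h1]; group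
  have huq : u = v * q * v⁻¹ := by
    rw [← h2]; group
  have hrs : r = b * (a⁻¹ * (b⁻¹ * q * b) * a) * b⁻¹ := by
    rw [hr, hp]; group
  constructor
  · have e1 : (a⁻¹ * (b⁻¹ * q * b) * a) * b * (a⁻¹ * (b⁻¹ * q * b) * a)⁻¹ = b⁻¹ * u * b := by
      rw [hu, hrs]; group
    rw [e1, huq, hvq]
    group
  · rw [← hrs, ← hvq]
    have h3 : v = a * x * a⁻¹ := by rw [hv, h0]
    have h4 : a * x = x * r := by
      have : a = x * r * x⁻¹ := h0.symm
      rw [this]; group
    have h5 : x = a⁻¹ * v * a := by rw [h3]; group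
    rw [h5] at h4
    have h6 : a * v * a = a * (a * (a⁻¹ * v * a)) := by group
    rw [h6, h4]
    group

end eqs

/-! ### Codes -/

theorem stepC_eq {α : Type} (g : Fin 2 × Bool) (s : Fin 3 → Strand M11 (Fin 3))
    (k : ℕ → ℕ → ℕ → ℕ → ℕ → ℕ → α) :
    stepC g (cM (s 0).lab) (cM (s 1).lab) (cM (s 2).lab) (cM (s 0).acc) (cM (s 1).acc)
      (cM (s 2).acc) k =
    k (cM (crossing g s 0).lab) (cM (crossing g s 1).lab) (cM (crossing g s 2).lab)
      (cM (crossing g s 0).acc) (cM (crossing g s 1).acc) (cM (crossing g s 2).acc) := by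
  rcases g with ⟨j, b⟩
  fin_cases j <;> cases b
  · have h0 : crossing ((0 : Fin 2), false) s 0 = s 1 := rfl
    have h1 : crossing ((0 : Fin 2), false) s 1 =
      ⟨(s 1).lab * (s 0).lab * (s 1).lab⁻¹, (s 0).acc * (s 1).lab⁻¹, (s 0).org⟩ := rfl
    have h2 : crossing ((0 : Fin 2), false) s 2 = s 2 := rfl
    change stepC ((0 : Fin 2), false) _ _ _ _ _ _ k =
      k (cM (crossing ((0 : Fin 2), false) s 0).lab) (cM (crossing ((0 : Fin 2), false) s 1).lab)
        (cM (crossing ((0 : Fin 2), false) s 2).lab) (cM (crossing ((0 : Fin 2), false) s 0).acc)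
        (cM (crossing ((0 : Fin 2), false) s 1).acc) (cM (crossing ((0 : Fin 2), false) s 2).acc)
    rw [h0, h1, h2]
    simp only [stepC, fo_eq, cM_mul, cM_inv]
  · have h0 : crossing ((0 : Fin 2), true) s 0 =
      ⟨(s 0).lab⁻¹ * (s 1).lab * (s 0).lab, (s 1).acc * (s 0).lab, (s 1).org⟩ := rfl
    have h1 : crossing ((0 : Fin 2), true) s 1 = s 0 := rfl
    have h2 : crossing ((0 : Fin 2), true) s 2 = s 2 := rfl
    change stepC ((0 : Fin 2), true) _ _ _ _ _ _ k =
      k (cM (crossing ((0 : Fin 2), true) s 0).lab) (cM (crossing ((0 : Fin 2), true) s 1).lab)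
        (cM (crossing ((0 : Fin 2), true) s 2).lab) (cM (crossing ((0 : Fin 2), true) s 0).acc)
        (cM (crossing ((0 : Fin 2), true) s 1).acc) (cM (crossing ((0 : Fin 2), true) s 2).acc)
    rw [h0, h1, h2]
    simp only [stepC, fo_eq, cM_mul, cM_inv]
  · have h0 : crossing ((1 : Fin 2), false) s 0 = s 0 := rfl
    have h1 : crossing ((1 : Fin 2), false) s 1 = s 2 := rfl
    have h2 : crossing ((1 : Fin 2), false) s 2 =
      ⟨(s 2).lab * (s 1).lab * (s 2).lab⁻¹, (s 1).acc * (s 2).lab⁻¹, (s 1).org⟩ := rfl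
    change stepC ((1 : Fin 2), false) _ _ _ _ _ _ k =
      k (cM (crossing ((1 : Fin 2), false) s 0).lab) (cM (crossing ((1 : Fin 2), false) s 1).lab)
        (cM (crossing ((1 : Fin 2), false) s 2).lab) (cM (crossing ((1 : Fin 2), false) s 0).acc)
        (cM (crossing ((1 : Fin 2), false) s 1).acc) (cM (crossing ((1 : Fin 2), false) s 2).acc)
    rw [h0, h1, h2]
    simp only [stepC, fo_eq, cM_mul, cM_inv]
  · have h0 : crossing ((1 : Fin 2), true) s 0 = s 0 := rfl
    have h1 : crossing ((1 : Fin 2), true) s 1 =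
      ⟨(s 1).lab⁻¹ * (s 2).lab * (s 1).lab, (s 2).acc * (s 1).lab, (s 2).org⟩ := rfl
    have h2 : crossing ((1 : Fin 2), true) s 2 = s 1 := rfl
    change stepC ((1 : Fin 2), true) _ _ _ _ _ _ k =
      k (cM (crossing ((1 : Fin 2), true) s 0).lab) (cM (crossing ((1 : Fin 2), true) s 1).lab)
        (cM (crossing ((1 : Fin 2), true) s 2).lab) (cM (crossing ((1 : Fin 2), true) s 0).acc)
        (cM (crossing ((1 : Fin 2), true) s 1).acc) (cM (crossing ((1 : Fin 2), true) s 2).acc)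
    rw [h0, h1, h2]
    simp only [stepC, fo_eq, cM_mul, cM_inv]

theorem runC_eq {α : Type} (w : Braid 2) (s : Fin 3 → Strand M11 (Fin 3))
    (k : ℕ → ℕ → ℕ → ℕ → ℕ → ℕ → α) :
    runC w (cM (s 0).lab) (cM (s 1).lab) (cM (s 2).lab) (cM (s 0).acc) (cM (s 1).acc)
      (cM (s 2).acc) k =
    k (cM (run w s 0).lab) (cM (run w s 1).lab) (cM (run w s 2).lab) (cM (run w s 0).acc)
      (cM (run w s 1).acc) (cM (run w s 2).acc) := by
  induction w generalizing s with
  | nil => rfl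
  | cons g w ih =>
    rw [run_cons, runC, stepC_eq, ih (crossing g s)]

theorem k7_spec (c : ℕ) (hc : c < 10) (t : ℕ × ℕ × ℕ) (ht : t ∈ nth [] sols c) :
    ∃ a q : M11, cM a = t.1 ∧ cM q = t.2.1 ∧ Closed wordM ![a, rho c, q] ∧
      cM (longAux wordM ![a, rho c, q] 1 3) = t.2.2 := by
  have h := (allT_iff _ _).1 d8 c hc
  unfold k8 at h
  rw [Bool.and_eq_true, List.all_eq_true] at h
  have h1 := h.1 t ht
  unfold k7 at h1
  rw [Bool.and_eq_true, Bool.and_eq_true] at h1
  obtain ⟨⟨h2, h3⟩, h4⟩ := h1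
  obtain ⟨a, ha⟩ := exists_of_inT _ h2
  obtain ⟨q, hq⟩ := exists_of_inT _ h3
  have h5 := runC_eq wordM (fresh ![a, rho c, q]) (fun l0 l1 l2 a0 a1 a2 =>
    Nat.beq l0 t.1 && Nat.beq l1 (nth 0 reps c) && Nat.beq l2 t.2.1 &&
      Nat.beq (pm a2 (pm a0 a1)) t.2.2)
  have h6 : runC wordM (cM (fresh ![a, rho c, q] 0).lab) (cM (fresh ![a, rho c, q] 1).lab)
      (cM (fresh ![a, rho c, q] 2).lab) (cM (fresh ![a, rho c, q] 0).acc)
      (cM (fresh ![a, rho c, q] 1).acc) (cM (fresh ![a, rho c, q] 2).acc)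
      (fun l0 l1 l2 a0 a1 a2 =>
        Nat.beq l0 t.1 && Nat.beq l1 (nth 0 reps c) && Nat.beq l2 t.2.1 &&
          Nat.beq (pm a2 (pm a0 a1)) t.2.2) = true := by
    have e0 : cM (fresh ![a, rho c, q] 0).lab = t.1 := ha
    have e1 : cM (fresh ![a, rho c, q] 1).lab = nth 0 reps c := cM_rho c hc
    have e2 : cM (fresh ![a, rho c, q] 2).lab = t.2.1 := hq
    have e3 : ∀ p, cM (fresh ![a, rho c, q] p).acc = cid := fun p => cM_one
    rw [e0, e1, e2, e3, e3, e3]
    exact h4
  rw [h6] at h5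
  have h7 := h5.symm
  rw [Bool.and_eq_true, Bool.and_eq_true, Bool.and_eq_true, beq_iff, beq_iff, beq_iff,
    beq_iff] at h7
  obtain ⟨⟨⟨g0, g1⟩, g2⟩, g3⟩ := h7
  refine ⟨a, q, ha, hq, ?_, ?_⟩
  · intro p
    fin_cases p
    · exact cM_inj (g0.trans ha.symm)
    · exact cM_inj (g1.trans (cM_rho c hc).symm)
    · exact cM_inj (g2.trans hq.symm)
  · rw [long3, permM1, permM0, cM_mul, cM_mul]
    exact g3

theorem inc_pairwise (l : List ℕ) (h : inc l = true) : l.Pairwise (· < ·) := by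
  have : l.IsChain (· < ·) := by
    induction l with
    | nil => exact List.isChain_nil
    | cons a l ih =>
      cases l with
      | nil => exact List.isChain_singleton a
      | cons b l =>
        rw [inc, Bool.and_eq_true, blt_iff] at h
        exact List.isChain_cons_cons.2 ⟨h.1, ih h.2⟩
  exact List.isChain_iff_pairwise.1 this

theorem sols_nodup (c : ℕ) (hc : c < 10) : (nth [] sols c).Nodup := by
  have h := (allT_iff _ _).1 d8 c hc
  unfold k8 at h
  rw [Bool.and_eq_true] at h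
  have h1 := inc_pairwise _ h.2
  have h2 : ((nth [] sols c).map fun t => t.1 * 17592186044416 + t.2.1).Nodup :=
    h1.imp (fun h => ne_of_lt h)
  exact List.Nodup.of_map _ h2

/-- The solutions with the longitude `y`. -/
theorem N_rho (c : ℕ) (hc : c < 10) (y : M11) : N wordM 1 (rho c) y = nu c (cM y) := by
  classical
  have hl : nu c (cM y) =
      ((nth [] sols c).filter fun t => Nat.beq t.2.2 (cM y)).toFinset.card := by
    rw [List.toFinset_card_of_nodup ((sols_nodup c hc).filter _)]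
    exact List.countP_eq_length_filter
  rw [hl, ← Nat.subtype_card ((nth [] sols c).filter fun t => Nat.beq t.2.2 (cM y)).toFinset
    (fun x => List.mem_toFinset)]
  have key : ∀ u : Fin 3 → M11, Closed wordM u → u 1 = rho c → longAux wordM u 1 3 = y →
      (cM (u 0), cM (u 2), cM y) ∈ (nth [] sols c).filter fun t => Nat.beq t.2.2 (cM y) := by
    intro u h1 h2 h3
    have hu : u = ![u 0, rho c, u 2] := by
      funext p
      fin_cases p
      · rfl
      · exact h2
      · rfl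
    have htr : ∀ p : Fin 3, ∃ g : M11, u p = g * rho c * g⁻¹ := by
      intro p
      obtain ⟨t, ht⟩ := (by decide : ∀ b p : Fin 3, ∃ t : Fin 3, (perm wordM)^[t.1] p = b) 1 p
      have := closed_conj wordM u h1 t p
      rw [ht, h2] at this
      obtain ⟨g, hg⟩ := isConj_iff.1 this
      exact ⟨g, hg.symm⟩
    have hcl : ∀ p : Fin 3, cl (u p) = c := by
      intro p
      obtain ⟨g, hg⟩ := htr p
      rw [hg, cl_conj, cl_rho c hc]
    have h1' := h1
    rw [hu] at h1'
    obtain ⟨e1, e2⟩ := closed_eqs _ _ _ h1'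
    obtain ⟨t, ht, ht1, ht2⟩ := k6_spec (u 0) (u 2) c hc (hcl 0) (hcl 2) e1 e2
    obtain ⟨a, q, ha, hq, hcl2, hlong⟩ := k7_spec c hc t ht
    have ea : a = u 0 := cM_inj (ha.trans ht1)
    have eq : q = u 2 := cM_inj (hq.trans ht2)
    rw [ea, eq, ← hu, h3] at hlong
    rw [List.mem_filter, beq_iff]
    refine ⟨?_, rfl⟩
    have : t = (cM (u 0), cM (u 2), cM y) := Prod.ext ht1 (Prod.ext ht2 hlong.symm)
    rw [← this]
    exact ht
  refine Nat.card_congr (Equiv.ofBijective
    (fun u : Sl wordM 1 (rho c) y =>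
      (⟨(cM (u.1 0), cM (u.1 2), cM y), key u.1 u.2.1 u.2.2.1 u.2.2.2⟩ :
        {t // t ∈ (nth [] sols c).filter fun t => Nat.beq t.2.2 (cM y)})) ⟨?_, ?_⟩)
  · intro u u' h
    have h1 := congrArg Subtype.val h
    dsimp only at h1
    rw [Prod.mk.injEq, Prod.mk.injEq] at h1
    apply Subtype.ext
    funext p
    fin_cases p
    · exact cM_inj h1.1
    · exact u.2.2.1.trans u'.2.2.1.symm
    · exact cM_inj h1.2.1
  · rintro ⟨t, ht⟩
    rw [List.mem_filter, beq_iff] at ht
    obtain ⟨a, q, ha, hq, hcl2, hlong⟩ := k7_spec c hc t ht.1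
    refine ⟨⟨![a, rho c, q], hcl2, rfl, cM_inj (hlong.trans ht.2)⟩, ?_⟩
    apply Subtype.ext
    exact Prod.ext ha (Prod.ext hq ht.2.symm)

end Pool.Agent.K3h45.LM
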