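import Pool.Agent.K3h45.LM.M6

/-!
# The two surgeries have different numbers of homomorphisms to the Mathieu group
-/

set_option autoImplicit false
set_option linter.unusedSectionVars false

namespace Pool.Agent.K3h45.LM

open Pool.Agent.W616

noncomputable instance : Fintype M11 := Fintype.ofFinite _

theorem sum_countP (l : List (ℕ × ℕ × ℕ)) (F : ℕ → ℤ) (h : ∀ t ∈ l, ∃ y : M11, cM y = t.2.2) :
    ∑ y : M11, ((l.countP fun t => Nat.beq t.2.2 (cM y) : ℕ) : ℤ) * F (cM y) =
      (l.map fun t => F t.2.2).sum := by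
  classical
  induction l with
  | nil => simp
  | cons t l ih =>
    rw [List.map_cons, List.sum_cons, ← ih fun t ht => h t (List.mem_cons_of_mem _ ht)]
    obtain ⟨y0, hy0⟩ := h t List.mem_cons_self
    have e : ∀ y : M11, (((t :: l).countP fun t => Nat.beq t.2.2 (cM y) : ℕ) : ℤ) * F (cM y) =
        (if y = y0 then F t.2.2 else 0) +
          ((l.countP fun t => Nat.beq t.2.2 (cM y) : ℕ) : ℤ) * F (cM y) := by
      intro y
      rw [List.countP_cons]
      by_cases hy : y = y0
      · subst hy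
        rw [if_pos rfl, if_pos ((beq_iff _ _).2 hy0.symm), hy0]
        push_cast
        ring
      · have : ¬ Nat.beq t.2.2 (cM y) = true := by
          rw [beq_iff, ← hy0]
          intro h
          exact hy (cM_inj h.symm)
        rw [if_neg hy, if_neg this]
        push_cast
        ring
    simp only [e]
    rw [Finset.sum_add_distrib, Finset.sum_ite_eq' Finset.univ y0 (fun _ => F t.2.2),
      if_pos (Finset.mem_univ _)]

/-- an element that conjugates the representative of the class of the inverses to the inverse -/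
noncomputable def tau (c : ℕ) : M11 :=
  if h : c < 10 then (exists_of_inT _ (k9_spec c h).2.2.1).choose else 1

theorem cM_tau (c : ℕ) (h : c < 10) : cM (tau c) = nth 0 icw c := by
  rw [tau, dif_pos h]
  exact (exists_of_inT _ (k9_spec c h).2.2.1).choose_spec

theorem rho_inv (c : ℕ) (h : c < 10) :
    (rho c)⁻¹ = tau c * rho (nth 0 icl c) * (tau c)⁻¹ := by
  obtain ⟨_, _, _, h4, h5⟩ := k9_spec c h
  have e : (rho c)⁻¹ * tau c = tau c * rho (nth 0 icl c) := by
    apply cM_inj
    rw [cM_mul, cM_mul, cM_inv, cM_rho c h, cM_rho _ h4, cM_tau c h]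
    exact h5
  rw [← e]
  group

theorem N_rho_inv (c : ℕ) (h : c < 10) (z : M11) :
    N wordM 1 (rho c)⁻¹ z = nu (nth 0 icl c) (cM ((tau c)⁻¹ * z * tau c)) := by
  have h4 := (k9_spec c h).2.2.2.1
  rw [rho_inv c h, ← N_rho _ h4]
  have : z = tau c * ((tau c)⁻¹ * z * tau c) * (tau c)⁻¹ := by group
  conv_lhs => rw [this]
  rw [N_conj]

theorem Dl_rho (c : ℕ) (h : c < 10) (s : Bool) :
    Dl (if s then 1 else -1) (rho c) = dlC s c := by
  have e0 : ∀ y : M11, (N wordM 1 (rho c) y : ℤ) *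
      ((N wordM 1 (rho c) (y⁻¹ * rho c ^ (-(if s then (1 : ℤ) else -1))) : ℤ) -
        N wordM 1 (rho c)⁻¹ (rho c ^ (if s then (1 : ℤ) else -1) * y)) =
      (((nth [] sols c).countP fun t => Nat.beq t.2.2 (cM y) : ℕ) : ℤ) * phiC s c (cM y) := by
    intro y
    rw [N_rho c h, N_rho c h, N_rho_inv c h]
    unfold phiC
    simp only [fo_eq]
    rw [← cM_rho c h, ← cM_tau c h]
    cases s
    · simp only [Bool.false_eq_true, if_false]
      have e1 : pm (pinv (cM y)) (cM (rho c)) = cM (y⁻¹ * rho c ^ (-(-1 : ℤ))) := by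
        rw [neg_neg, zpow_one, cM_mul, cM_inv]
      have e2 : pm (pm (pinv (cM (tau c))) (pm (pinv (cM (rho c))) (cM y))) (cM (tau c)) =
          cM ((tau c)⁻¹ * (rho c ^ (-1 : ℤ) * y) * tau c) := by
        rw [zpow_neg_one]
        simp only [cM_mul, cM_inv]
      rw [e1, e2]
      rfl
    · simp only [if_true]
      have e1 : pm (pinv (cM y)) (pinv (cM (rho c))) = cM (y⁻¹ * rho c ^ (-(1 : ℤ))) := by
        rw [zpow_neg_one, cM_mul, cM_inv, cM_inv]
      have e2 : pm (pm (pinv (cM (tau c))) (pm (cM (rho c)) (cM y))) (cM (tau c)) =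
          cM ((tau c)⁻¹ * (rho c ^ (1 : ℤ) * y) * tau c) := by
        rw [zpow_one]
        simp only [cM_mul, cM_inv]
      rw [e1, e2]
      rfl
  unfold Dl dlC
  simp only [e0]
  exact sum_countP _ _ fun t ht => by
    obtain ⟨a, q, _, _, _, hl⟩ := k7_spec c h t ht
    exact ⟨_, hl⟩

theorem Dl_all (s : Bool) (x : M11) : ∃ c < 10,
    Dl (if s then 1 else -1) x + Dl (if s then 1 else -1) x⁻¹ = dlC s c + dlC s (nth 0 icl c) := by
  obtain ⟨hc, g, _, hg⟩ := k3_spec x
  refine ⟨cl x, hc, ?_⟩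
  have h4 := (k9_spec _ hc).2.2.2.1
  have e1 : Dl (if s then 1 else -1) x = dlC s (cl x) := by
    rw [hg, Dl_conj, ← hg, Dl_rho _ hc]
  have e2 : x⁻¹ = (g * tau (cl x)) * rho (nth 0 icl (cl x)) * (g * tau (cl x))⁻¹ := by
    have : x⁻¹ = g * (rho (cl x))⁻¹ * g⁻¹ := by
      conv_lhs => rw [hg]
      group
    rw [this, rho_inv _ hc]
    group
  have e3 : Dl (if s then 1 else -1) x⁻¹ = dlC s (nth 0 icl (cl x)) := by
    rw [e2, Dl_conj, Dl_rho _ h4]
  rw [e1, e3]

theorem dl_nonneg (s : Bool) (c : ℕ) (h : c < 10) : 0 ≤ dlC s c + dlC s (nth 0 icl c) := by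
  obtain ⟨a0, a1, a2, a3, a4, a5, a6, a7, a8, a9⟩ := dl_true
  obtain ⟨b0, b1, b2, b3, b4, b5, b6, b7, b8, b9⟩ := dl_false
  have i0 : nth 0 icl 0 = 0 := rfl
  have i1 : nth 0 icl 1 = 2 := rfl
  have i2 : nth 0 icl 2 = 1 := rfl
  have i3 : nth 0 icl 3 = 4 := rfl
  have i4 : nth 0 icl 4 = 3 := rfl
  have i5 : nth 0 icl 5 = 5 := rfl
  have i6 : nth 0 icl 6 = 6 := rfl
  have i7 : nth 0 icl 7 = 7 := rfl
  have i8 : nth 0 icl 8 = 8 := rfl
  have i9 : nth 0 icl 9 = 9 := rfl
  cases s
  · interval_cases c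
    · rw [i0, b0]; norm_num
    · rw [i1, b1, b2]; norm_num
    · rw [i2, b1, b2]; norm_num
    · rw [i3, b3, b4]; norm_num
    · rw [i4, b3, b4]; norm_num
    · rw [i5, b5]; norm_num
    · rw [i6, b6]; norm_num
    · rw [i7, b7]; norm_num
    · rw [i8, b8]; norm_num
    · rw [i9, b9]; norm_num
  · interval_cases c
    · rw [i0, a0]; norm_num
    · rw [i1, a1, a2]; norm_num
    · rw [i2, a1, a2]; norm_num
    · rw [i3, a3, a4]; norm_num
    · rw [i4, a3, a4]; norm_num
    · rw [i5, a5]; norm_num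
    · rw [i6, a6]; norm_num
    · rw [i7, a7]; norm_num
    · rw [i8, a8]; norm_num
    · rw [i9, a9]; norm_num

/-- The numbers of homomorphisms to the Mathieu group are different for the framings `1` and `-1`. -/
theorem card_MM_lt (f : ℤ) (hf : f = 1 ∨ f = -1) :
    Nat.card (pi1 (left3 wordM ++ right3 wordM.reverse) 2 f →* M11) <
      Nat.card (pi1 (left3 wordM ++ right3 wordM) 2 f →* M11) := by
  have key : ∀ s : Bool, Nat.card (pi1 (left3 wordM ++ right3 wordM.reverse) 2
      (if s then 1 else -1) →* M11) <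
      Nat.card (pi1 (left3 wordM ++ right3 wordM) 2 (if s then 1 else -1) →* M11) := by
    intro s
    apply card_lt
    · intro x
      obtain ⟨c, hc, e⟩ := Dl_all s x
      rw [e]
      exact dl_nonneg s c hc
    · refine ⟨rho 1, ?_⟩
      have h1 : (1 : ℕ) < 10 := by norm_num
      have e1 := Dl_rho 1 h1 s
      have e2 : Dl (if s then 1 else -1) (rho 1)⁻¹ = dlC s 2 := by
        rw [rho_inv 1 h1, Dl_conj]
        exact Dl_rho 2 (by norm_num) s
      rw [e1, e2]
      obtain ⟨_, a1, a2, _⟩ := dl_true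
      obtain ⟨_, b1, b2, _⟩ := dl_false
      cases s
      · rw [b1, b2]; norm_num
      · rw [a1, a2]; norm_num
  rcases hf with rfl | rfl
  · exact key true
  · exact key false

end Pool.Agent.K3h45.LM
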