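import Pool.Agent.K3h45.LM.M7

/-!
# Inserting powers of generators, and connected sums
-/

set_option autoImplicit false
set_option linter.unusedSectionVars false

namespace Pool.Agent.K3h45.LM

open Pool.Agent.W616
open Pool.Agent.Y472.RH (run_pos run_cancel ab_equiv pow_ne)

/-- `InsE e w₀ w`: the braid word `w` is obtained from `w₀` by inserting, any number of times and at
any places, the `2 e`-th power of a generator `σ_i` or of its inverse. -/
inductive InsE (e : ℕ) {m : ℕ} (w₀ : Braid m) : Braid m → Prop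
  | refl : InsE e w₀ w₀
  | insert (u v : Braid m) (g : Fin m × Bool) (h : InsE e w₀ (u ++ v)) :
      InsE e w₀ (u ++ List.replicate (2 * e) g ++ v)

section ins

variable {e m n : ℕ}

theorem InsE.reverse {w₀ w : Braid m} (h : InsE e w₀ w) : InsE e w₀.reverse w.reverse := by
  induction h with
  | refl => exact InsE.refl
  | insert u v g _ ih =>
    rw [List.reverse_append] at ih
    have := InsE.insert v.reverse u.reverse g ih
    rw [List.reverse_append, List.reverse_append, List.reverse_replicate]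
    rw [List.append_assoc] at this
    exact this

theorem InsE.map {w₀ w : Braid m} (k : Fin m → Fin n) (h : InsE e w₀ w) :
    InsE e (w₀.map fun g => (k g.1, g.2)) (w.map fun g => (k g.1, g.2)) := by
  induction h with
  | refl => exact InsE.refl
  | insert u v g _ ih =>
    rw [List.map_append] at ih
    have := InsE.insert _ _ (k g.1, g.2) ih
    rw [List.map_append, List.map_append, List.map_replicate]
    exact this

theorem InsE.trans {w₀ w₁ w₂ : Braid m} (h : InsE e w₀ w₁) (h' : InsE e w₁ w₂) :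
    InsE e w₀ w₂ := by
  induction h' with
  | refl => exact h
  | insert u v g _ ih => exact InsE.insert u v g ih

theorem InsE.append_right {w₀ w : Braid m} (h : InsE e w₀ w) (z : Braid m) :
    InsE e (w₀ ++ z) (w ++ z) := by
  induction h with
  | refl => exact InsE.refl
  | insert u v g _ ih =>
    rw [List.append_assoc] at ih
    have := InsE.insert u (v ++ z) g ih
    rw [List.append_assoc, List.append_assoc]
    rw [List.append_assoc] at this
    exact this

theorem InsE.append_left {w₀ w : Braid m} (h : InsE e w₀ w) (z : Braid m) :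
    InsE e (z ++ w₀) (z ++ w) := by
  induction h with
  | refl => exact InsE.refl
  | insert u v g _ ih =>
    rw [← List.append_assoc] at ih
    have := InsE.insert (z ++ u) v g ih
    rw [← List.append_assoc, ← List.append_assoc]
    exact this

theorem InsE.append {w₀ w z₀ z : Braid m} (h : InsE e w₀ w) (h' : InsE e z₀ z) :
    InsE e (w₀ ++ z₀) (w ++ z) :=
  (h.append_right z₀).trans (h'.append_left w)

/-- the words for the sums -/
theorem InsE.sum {w₀ w z₀ z : Braid 2} (h : InsE e w₀ w) (h' : InsE e z₀ z) :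
    InsE e (left3 w₀ ++ right3 z₀) (left3 w ++ right3 z) :=
  (h.map _).append (h'.map _)

theorem InsE.writhe {w₀ w : Braid m} (h : InsE e w₀ w) :
    ∃ k : ℤ, writhe w = writhe w₀ + e * k := by
  induction h with
  | refl => exact ⟨0, by ring⟩
  | insert u v g _ ih =>
    obtain ⟨k, hk⟩ := ih
    have h1 : ∀ a b : Braid m, Pool.Agent.W616.writhe (a ++ b) =
        Pool.Agent.W616.writhe a + Pool.Agent.W616.writhe b := fun a b => by
      simp [Pool.Agent.W616.writhe]
    rw [h1] at hk
    rw [h1, h1]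
    have h2 : Pool.Agent.W616.writhe (List.replicate (2 * e) g) =
        e * (2 * (if g.2 then (1 : ℤ) else -1)) := by
      simp only [Pool.Agent.W616.writhe, List.map_replicate, List.sum_replicate, nsmul_eq_mul]
      push_cast
      ring
    rw [h2]
    refine ⟨k + 2 * (if g.2 then (1 : ℤ) else -1), ?_⟩
    linear_combination hk

end ins

section run

variable {G O : Type*} [Group G] {e m : ℕ}

theorem run_2e (he : ∀ a : G, a ^ e = 1) (g : Fin m × Bool) (x : Fin (m + 1) → Strand G O) :
    run (List.replicate (2 * e) g) x = x := by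
  have hpos : ∀ i : Fin m, run (List.replicate (2 * e) (i, true)) x = x := by
    intro i
    obtain ⟨ha, hb, hc⟩ := run_pos i e x
    simp only [he, one_mul, mul_one] at ha hb
    funext p
    by_cases h1 : p = i.castSucc
    · rw [h1, ha]
    · by_cases h2 : p = i.succ
      · rw [h2, hb]
      · exact hc p h1 h2
  rcases g with ⟨i, b⟩
  cases b
  · have h := run_cancel i (2 * e) x
    rwa [hpos i] at h
  · exact hpos i

theorem InsE.run_eq (he : ∀ a : G, a ^ e = 1) {w₀ w : Braid m} (h : InsE e w₀ w)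
    (x : Fin (m + 1) → Strand G O) : run w x = run w₀ x := by
  induction h with
  | refl => rfl
  | insert u v g _ ih =>
    rw [run_append, run_append, run_2e he, ← run_append]
    exact ih

theorem InsE.perm_eq {w₀ w : Braid m} (h : InsE e w₀ w) : perm w = perm w₀ := by
  funext p
  unfold perm
  rw [h.run_eq (fun _ => rfl)]

theorem InsE.longAux_eq (he : ∀ a : G, a ^ e = 1) {w₀ w : Braid m} (h : InsE e w₀ w)
    (x : Fin (m + 1) → G) (b : Fin (m + 1)) (t : ℕ) : longAux w x b t = longAux w₀ x b t := by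
  induction t with
  | zero => rfl
  | succ t ih =>
    unfold longAux
    rw [ih, h.run_eq he]

theorem InsE.closed_iff (he : ∀ a : G, a ^ e = 1) {w₀ w : Braid m} (h : InsE e w₀ w)
    (x : Fin (m + 1) → G) : Closed w x ↔ Closed w₀ x := by
  unfold Closed labs
  rw [h.run_eq he]

/-- The number of homomorphisms to a group of exponent `e` does not change. -/
theorem InsE.card_hom (he : ∀ a : G, a ^ e = 1) {w₀ w : Braid m} (h : InsE e w₀ w)
    (b : Fin (m + 1)) (f : ℤ) :
    Nat.card (pi1 w b f →* G) = Nat.card (pi1 w₀ b f →* G) := by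
  rw [Nat.card_congr (homEquiv w b f), Nat.card_congr (homEquiv w₀ b f)]
  refine Nat.card_congr (Equiv.subtypeEquivRight fun x => ?_)
  rw [h.closed_iff he, h.longAux_eq he]
  obtain ⟨k, hk⟩ := h.writhe
  have e3 : x b ^ (f - Pool.Agent.W616.writhe w) = x b ^ (f - Pool.Agent.W616.writhe w₀) := by
    have e1 : f - Pool.Agent.W616.writhe w = (f - Pool.Agent.W616.writhe w₀) + e * (-k) := by
      rw [hk]; ring
    rw [e1, zpow_add, zpow_mul]
    have e2 : x b ^ (e : ℤ) = 1 := by
      rw [zpow_natCast]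
      exact he (x b)
    rw [e2, one_zpow, mul_one]
  rw [e3]

end run

/-! ### The exponent of the Mathieu group -/

/-- codes of powers -/
def pwC (x : ℕ) : ℕ → ℕ
  | 0 => cid
  | n + 1 => fo (pwC x n) fun y => pm y x

theorem pwC_eq (g : M11) (n : ℕ) : pwC (cM g) n = cM (g ^ n) := by
  induction n with
  | zero => rw [pwC, pow_zero, cM_one]
  | succ n ih => rw [pwC, fo_eq, ih, pow_succ, cM_mul]

theorem pw_reps : allT 10 (fun c => Nat.beq (pwC (nth 0 reps c) 8) cid ||
    Nat.beq (pwC (nth 0 reps c) 11) cid || Nat.beq (pwC (nth 0 reps c) 5) cid ||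
      Nat.beq (pwC (nth 0 reps c) 6) cid) = true := by decide +kernel

theorem pow1320 (g : M11) : g ^ 1320 = 1 := by
  obtain ⟨hc, h, _, hg⟩ := k3_spec g
  have h1 := (allT_iff _ _).1 pw_reps (cl g) hc
  rw [Bool.or_eq_true, Bool.or_eq_true, Bool.or_eq_true, beq_iff, beq_iff, beq_iff, beq_iff] at h1
  have key : ∀ n k : ℕ, 1320 = n * k → pwC (nth 0 reps (cl g)) n = cid →
      rho (cl g) ^ 1320 = 1 := by
    intro n k hn h2
    rw [← cM_rho _ hc, pwC_eq, ← cM_one] at h2
    rw [hn, pow_mul, cM_inj h2, one_pow]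
  have h2 : rho (cl g) ^ 1320 = 1 := by
    rcases h1 with ((h1 | h1) | h1) | h1
    · exact key 8 165 (by norm_num) h1
    · exact key 11 120 (by norm_num) h1
    · exact key 5 264 (by norm_num) h1
    · exact key 6 220 (by norm_num) h1
  rw [hg, conj_pow, h2]
  group

/-! ### The sums -/

/-- the word for `K₁ # K₂` (`c = false`) and for `K₁ # rK₂` (`c = true`) -/
def sumW (w₁ w₂ : Braid 2) (c : Bool) : Braid 4 :=
  left3 w₁ ++ right3 (if c then w₂.reverse else w₂)

section sums

variable {w₁ w₂ : Braid 2}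

theorem card_hom_sum (h₁ : InsE 1320 wordM w₁) (h₂ : InsE 1320 wordM w₂) (c : Bool) (f : ℤ) :
    Nat.card (pi1 (sumW w₁ w₂ c) 2 f →* M11) = Nat.card (pi1 (sumW wordM wordM c) 2 f →* M11) := by
  cases c
  · exact InsE.card_hom pow1320 (h₁.sum h₂) 2 f
  · exact InsE.card_hom pow1320 (h₁.sum h₂.reverse) 2 f

theorem card_ne (h₁ : InsE 1320 wordM w₁) (h₂ : InsE 1320 wordM w₂) (f : ℤ)
    (hf : f = 1 ∨ f = -1) : Nat.card (pi1 (sumW w₁ w₂ false) 2 f →* M11) ≠
      Nat.card (pi1 (sumW w₁ w₂ true) 2 f →* M11) := by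
  rw [card_hom_sum h₁ h₂, card_hom_sum h₁ h₂]
  exact (card_MM_lt f hf).ne'

theorem finite_homs {m : ℕ} (w : Braid m) (b : Fin (m + 1)) (f : ℤ) :
    Finite (pi1 w b f →* M11) := Finite.of_equiv _ (homEquiv w b f).symm

theorem card_pos_homs {m : ℕ} (w : Braid m) (b : Fin (m + 1)) (f : ℤ) :
    0 < Nat.card (pi1 w b f →* M11) := by
  have := finite_homs w b f
  exact Nat.card_pos

theorem trans_MM : ∀ b p : Fin 5, ∃ t : Fin 5, (perm (sumW wordM wordM false))^[t.1] p = b := by
  decide
theorem trans_MrM : ∀ b p : Fin 5, ∃ t : Fin 5, (perm (sumW wordM wordM true))^[t.1] p = b := by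
  decide

theorem trans_sum (h₁ : InsE 1320 wordM w₁) (h₂ : InsE 1320 wordM w₂) (c : Bool) :
    ∀ b p : Fin 5, ∃ t : Fin 5, (perm (sumW w₁ w₂ c))^[t.1] p = b := by
  cases c
  · have : perm (sumW w₁ w₂ false) = perm (sumW wordM wordM false) := (h₁.sum h₂).perm_eq
    rw [this]; exact trans_MM
  · have : perm (sumW w₁ w₂ true) = perm (sumW wordM wordM true) := (h₁.sum h₂.reverse).perm_eq
    rw [this]; exact trans_MrM

theorem isKnot_sum (h₁ : InsE 1320 wordM w₁) (h₂ : InsE 1320 wordM w₂) (c : Bool) :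
    IsKnot (sumW w₁ w₂ c) := fun p => ⟨_, (trans_sum h₁ h₂ c p 0).choose_spec⟩

/-- The manifolds are integral homology spheres. -/
theorem ab_sum (h₁ : InsE 1320 wordM w₁) (h₂ : InsE 1320 wordM w₂) (c : Bool) (f : ℤ)
    (hf : f = 1 ∨ f = -1) : Subsingleton (Abelianization (pi1 (sumW w₁ w₂ c) 2 f)) := by
  obtain ⟨e⟩ := ab_equiv (sumW w₁ w₂ c) 2 f (fun p => trans_sum h₁ h₂ c p 2)
    (fun p => ⟨_, (trans_sum h₁ h₂ c 2 p).choose_spec⟩)
  have h1 : f.natAbs = 1 := by
    rcases hf with rfl | rfl <;> rfl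
  rw [h1] at e
  have : Subsingleton (Multiplicative (ZMod 1)) :=
    inferInstanceAs (Subsingleton (ZMod 1))
  exact e.toEquiv.subsingleton

theorem tauG_sum (Δ : CartanDatum) (r : ℕ) (w₁ w₂ : Braid 2) (f : ℤ) (c c' : Bool) :
    tauG Δ r (sumW w₁ w₂ c) f = tauG Δ r (sumW w₁ w₂ c') f :=
  Pool.Agent.Y472.RH.tauG_all Δ r w₁ w₂ f c c'

theorem tauPG_sum (Δ : CartanDatum) (r : ℕ) (w₁ w₂ : Braid 2) (f : ℤ) (c c' : Bool) :
    tauPG Δ r (sumW w₁ w₂ c) f = tauPG Δ r (sumW w₁ w₂ c') f :=
  Pool.Agent.Y472.RH.tauPG_all Δ r w₁ w₂ f c c'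

theorem card_coprodM {ι : Type} [Fintype ι] (G : ι → Type) [∀ i, Group (G i)] :
    Nat.card (Monoid.CoprodI G →* M11) = ∏ i, Nat.card (G i →* M11) := by
  rw [← Nat.card_congr (Monoid.CoprodI.lift (M := G) (N := M11)), Nat.card_pi]

/-- the number of homomorphisms for a connected sum -/
theorem card_conn (w₁ w₂ : Braid 2) (f : ℤ) {n : ℕ} (c : Fin n → Bool) :
    Nat.card (Monoid.CoprodI (fun i => pi1 (sumW w₁ w₂ (c i)) 2 f) →* M11) =
      Nat.card (pi1 (sumW w₁ w₂ false) 2 f →* M11) ^
        (n - (Finset.univ.filter fun i => c i = true).card) *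
      Nat.card (pi1 (sumW w₁ w₂ true) 2 f →* M11) ^
        (Finset.univ.filter fun i => c i = true).card := by
  rw [card_coprodM]
  have e1 : ∀ i, Nat.card (pi1 (sumW w₁ w₂ (c i)) 2 f →* M11) =
      if c i = true then Nat.card (pi1 (sumW w₁ w₂ true) 2 f →* M11)
        else Nat.card (pi1 (sumW w₁ w₂ false) 2 f →* M11) := by
    intro i
    cases c i <;> simp
  rw [Finset.prod_congr rfl fun i _ => e1 i, Finset.prod_ite, Finset.prod_const,
    Finset.prod_const, mul_comm]
  congr 2
  have h2 := Finset.card_filter_add_card_filter_not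
    (s := (Finset.univ : Finset (Fin n))) (fun i => c i = true)
  rw [Finset.card_univ, Fintype.card_fin] at h2
  omega

/-- The fundamental groups of the connected sums. -/
theorem coprod_not_iso (h₁ : InsE 1320 wordM w₁) (h₂ : InsE 1320 wordM w₂) (f : ℤ)
    (hf : f = 1 ∨ f = -1) {n : ℕ} (c c' : Fin n → Bool)
    (hc : (Finset.univ.filter fun i => c i = true).card ≠
      (Finset.univ.filter fun i => c' i = true).card) :
    IsEmpty (Monoid.CoprodI (fun i => pi1 (sumW w₁ w₂ (c i)) 2 f) ≃*
      Monoid.CoprodI (fun i => pi1 (sumW w₁ w₂ (c' i)) 2 f)) := by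
  constructor
  intro e
  have h : Nat.card (Monoid.CoprodI (fun i => pi1 (sumW w₁ w₂ (c i)) 2 f) →* M11) =
      Nat.card (Monoid.CoprodI (fun i => pi1 (sumW w₁ w₂ (c' i)) 2 f) →* M11) :=
    Nat.card_congr e.monoidHomCongrLeftEquiv
  rw [card_conn, card_conn] at h
  have hA := card_pos_homs (sumW w₁ w₂ false) 2 f
  have hB := card_pos_homs (sumW w₁ w₂ true) 2 f
  have hne := card_ne h₁ h₂ f hf
  have hle : ∀ c : Fin n → Bool, (Finset.univ.filter fun i => c i = true).card ≤ n := by
    intro c
    have := Finset.card_filter_le (Finset.univ : Finset (Fin n)) (fun i => c i = true)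
    simpa using this
  rcases lt_or_gt_of_ne hc with h3 | h3
  · exact pow_ne hA hB hne h3 (hle c') h
  · exact pow_ne hA hB hne h3 (hle c) h.symm

end sums

end Pool.Agent.K3h45.LM
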